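import Pool.Agent.H580.EC.RW5
import Pool.Agent.H580.EC.Pair

set_option autoImplicit false

open MeasureTheory Set Filter
open scoped Topology

/-!
Site percolation on `Z^d` at and near the critical point: effective conductances are controlled by
the probabilities of disconnection.  At the critical point, `d ≥ 3`, the effective conductance
between a box of radius `k` and infinity is at most of the order `log k` (in the supercritical phase
it is of the order `k^(d-2)`), and the spectral dimension of an infinite cluster would be at most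
two.

The proof is in the modules `Pool.Agent.H580.EC.*`; it uses the theorems
`Pool.Graph.R_seed8.Results.MP_e13933_pr.PolynomialHoles` and
`Pool.Graph.R_seed8.Results.MP_e13933_pr.PolynomialDisconnection` of the library.
-/

namespace Pool.Agent.Results.MP_e13933_pr.LogConductance

noncomputable section

/-- Vertices of `Z^d`. -/
abbrev V (d : ℕ) : Type := Fin d → ℤ

/-- The open subgraph inside the region `S`: two vertices at Euclidean distance one are joined if
both are open (`ω x = true`) and in `S`. -/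
def openGraph {d : ℕ} (ω : V d → Bool) (S : Set (V d)) : SimpleGraph (V d) where
  Adj x y := ∑ i, |x i - y i| = 1 ∧ (x ∈ S ∧ ω x = true) ∧ (y ∈ S ∧ ω y = true)
  symm := ⟨fun x y ⟨h1, h2, h3⟩ => ⟨by simpa only [abs_sub_comm] using h1, h3, h2⟩⟩
  loopless := ⟨fun x h => by simpa using h.1⟩

/-- The open cluster of `x` inside the region `S` (empty if `x` is closed). -/
def cluster {d : ℕ} (ω : V d → Bool) (S : Set (V d)) (x : V d) : Set (V d) :=
  {y | (ω x = true ∧ x ∈ S) ∧ (openGraph ω S).Reachable x y}

/-- Site percolation with densities `r x`: the vertex `x` is open with probability `r x`,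
independently of all others. -/
def P {d : ℕ} (r : V d → unitInterval) : Measure (V d → Bool) :=
  Measure.infinitePi (fun x : V d =>
    ENNReal.ofReal (r x : ℝ) • Measure.dirac true +
      ENNReal.ofReal (1 - (r x : ℝ)) • Measure.dirac false)

/-- The percolation probability `θ_d(p)` (all densities equal to `p`). -/
def theta (d : ℕ) (p : unitInterval) : ℝ :=
  (P fun _ : V d => p).real {ω | (cluster ω univ 0).Infinite}

/-- The critical point `p_c(d)`, the supremum of the parameters with `θ_d(p) = 0`. -/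
def pc (d : ℕ) : unitInterval :=
  ⟨sSup {t : ℝ | ∃ q : unitInterval, (q : ℝ) = t ∧ theta d q = 0}, by
    constructor
    · apply Real.sSup_nonneg
      rintro x ⟨q, rfl, _⟩
      exact q.2.1
    · apply Real.sSup_le
      · rintro x ⟨q, rfl, _⟩
        exact q.2.2
      · exact zero_le_one⟩

/-- The box of radius `n` around `z`. -/
def box {d : ℕ} (z : V d) (n : ℕ) : Finset (V d) :=
  Fintype.piFinset fun i => Finset.Icc (z i - n) (z i + n)

/-- The Dirichlet energy of `f` on the open graph (unit conductances; every pair of open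
neighbours is counted once). -/
def energy {d : ℕ} (ω : V d → Bool) (f : V d → ℝ) : ℝ :=
  ∑' x : V d, ∑ i : Fin d, if ω x = true ∧ ω (x + Pi.single i 1) = true then
    (f (x + Pi.single i 1) - f x) ^ 2 else 0

/-- The effective conductance between `K` and infinity in the open graph: the infimum of the
energies of the functions with finite support which are `1` on `K`. -/
def cond {d : ℕ} (ω : V d → Bool) (K : Set (V d)) : ℝ :=
  ⨅ f : {f : V d → ℝ // (Function.support f).Finite ∧ ∀ x ∈ K, f x = 1}, energy ω f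

/-- The Dirichlet energy of `f` on the open graph inside the finite region `s`. -/
def energyIn {d : ℕ} (ω : V d → Bool) (s : Finset (V d)) (f : V d → ℝ) : ℝ :=
  ∑ x ∈ s, ∑ i : Fin d, if x + Pi.single i 1 ∈ s ∧ ω x = true ∧ ω (x + Pi.single i 1) = true then
    (f (x + Pi.single i 1) - f x) ^ 2 else 0

/-- The effective conductance between `K` and `L` in the open graph inside the finite region
`s`. -/
def condIn {d : ℕ} (ω : V d → Bool) (s : Finset (V d)) (K L : Set (V d)) : ℝ :=
  ⨅ f : {f : V d → ℝ // (∀ x ∈ K, f x = 1) ∧ ∀ x ∈ L, f x = 0}, energyIn ω s f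

/-- The unit vector `± e_i`, for `s = (i, ±)`. -/
def unit {d : ℕ} (s : Fin d × Bool) : V d := Pi.single s.1 (if s.2 then 1 else -1)

/-- The `n`-step transition probabilities of the random walk on the open clusters: at each step one
of the `2 d` neighbours is chosen uniformly at random, and the walk moves there if its present
position and the chosen neighbour are both open; otherwise it does not move. -/
def heat {d : ℕ} (ω : V d → Bool) : ℕ → V d → V d → ℝ
  | 0, x, y => if x = y then 1 else 0
  | n + 1, x, y => (∑ s : Fin d × Bool, if ω x = true ∧ ω (x + unit s) = true then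
      heat ω n (x + unit s) y else heat ω n x y) / (2 * d)

lemma P_eq {d : ℕ} (r : V d → unitInterval) :
    P r = Pool.Agent.Results.MP_e13933_pr.HalfSpace.P r := rfl

lemma pc_eq (d : ℕ) : pc d = Pool.Agent.Results.MP_e13933_pr.HalfSpace.pc d := rfl

lemma box_eq {d : ℕ} (z : V d) (n : ℕ) : box z n = Pool.Agent.H979.PC.bx z n := rfl

lemma cond_eq {d : ℕ} (ω : V d → Bool) (K : Set (V d)) :
    cond ω K = Pool.Agent.H580.EC.cond ω K := rfl

lemma condIn_eq {d : ℕ} (ω : V d → Bool) (s : Finset (V d)) (K L : Set (V d)) :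
    condIn ω s K L = Pool.Agent.H580.EC.condIn ω s K L := rfl

lemma heat_eq {d : ℕ} (ω : V d → Bool) (n : ℕ) : ∀ x y : V d,
    heat ω n x y = Pool.Agent.H979.PC.heat ω n x y := by
  induction n with
  | zero => exact fun x y => rfl
  | succ n ih =>
    intro x y
    show (∑ s : Fin d × Bool, if ω x = true ∧ ω (x + unit s) = true then
      heat ω n (x + unit s) y else heat ω n x y) / (2 * d) = _
    simp only [ih]
    rfl

lemma uu_eq {d : ℕ} (p : unitInterval) (j : ℕ) :
    ∫ ω in {ω : V d → Bool | (cluster ω univ 0).Infinite}, heat ω (2 * j) 0 0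
      ∂(P fun _ : V d => p) = Pool.Agent.H580.EC.uu d p j := by
  have hm : MeasurableSet {ω : V d → Bool | (cluster ω univ 0).Infinite} :=
    Pool.Agent.H580.EC.meas_inf (0 : V d)
  rw [← integral_indicator hm]
  unfold Pool.Agent.H580.EC.uu
  refine integral_congr_ae (Eventually.of_forall fun ω => ?_)
  show ({ω : V d → Bool | (cluster ω univ 0).Infinite}.indicator fun ω => heat ω (2 * j) 0 0) ω =
    Pool.Agent.H580.EC.ii ω 0 * Pool.Agent.H979.PC.heat ω (2 * j) 0 0
  unfold Pool.Agent.H580.EC.ii
  rw [← heat_eq]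
  by_cases h : (cluster ω univ 0).Infinite
  · rw [indicator_of_mem (show ω ∈ {ω : V d → Bool | (cluster ω univ 0).Infinite} from h),
      indicator_of_mem (show ω ∈ {ω : V d → Bool |
        (Pool.Agent.Results.MP_e13933_pr.HalfSpace.cluster ω univ 0).Infinite} from h)]
    simp
  · rw [indicator_of_notMem (show ω ∉ {ω : V d → Bool | (cluster ω univ 0).Infinite} from h),
      indicator_of_notMem (show ω ∉ {ω : V d → Bool |
        (Pool.Agent.Results.MP_e13933_pr.HalfSpace.cluster ω univ 0).Infinite} from h)]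
    simp

/-- **Effective conductances and disconnection.**

* For all densities and all finite sets `K`, the effective conductance `cond ω K`
  between `K` and infinity satisfies `P(K is not connected to ∞) E[exp (cond / (16 d))] ≤ 1`; the
  effective conductance between two disjoint sets `K` and `L` inside a finite region `s` satisfies
  the same inequality with the probability that `K` and `L` are not connected inside `s`.
* Let `d ≥ 2` and `p ≤ p_c`.  If `C (k + 1) ^ (2 d² + 3 d) R ≤ √N` and `u, v` are vertices of the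
  box of radius `N` at distance at least `N / 2`, then the mean effective conductance between the
  boxes of radius `k` around `u` and `v` inside the box of radius `R N` is at most
  `16 d log (4 · 10^14 R)`, whatever `k` and `N`.
* Let `d ≥ 3`.  For `p ≤ p_c + c / (k + 2) ^ A` the mean effective conductance between the box of
  radius `k` and infinity is at most `C log (k + 2)`, with an exponential tail.
* Let `d ≥ 3`.  For `p ≤ p_c`, almost surely for all large `k` the effective conductances between
  infinity and all the boxes of radius `k` with centres in the box of radius `k ^ M` are at most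
  `C (M + 1) log (k + 2)`.
* Let `d ≥ 3`.  For `p ≤ p_c`, almost surely for all large `k` and all sets `B` of vertices of the
  box of radius `k`, the random walk started at a uniformly chosen vertex of `B` spends in `B` before
  the time `(k + 2) ^ A` an expected time of at least `|B| / (C log (k + 2))` (take for `B` all
  vertices of infinite clusters in the box; in the supercritical phase the time is of the order
  `k^2`).
* Let `d ≥ 3`.  For `p ≤ p_c + c / T ^ A` and `C ≤ θ(p)² T` the annealed return probabilities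
  on the event that the cluster of the origin is infinite satisfy
  `∑_{T ≤ t ≤ T ^ A} E_p[P^{2t}(0, 0); |C(0)| = ∞] ≥ c θ(p)² / log T`: the spectral dimension of
  an infinite critical cluster is at most two. -/
theorem result (d : ℕ) (hd : 2 ≤ d) :
    (∀ (r : V d → unitInterval) (K : Set (V d)), K.Finite →
      Integrable (fun ω => cond ω K) (P r) ∧
      Integrable (fun ω => Real.exp (cond ω K / (16 * d))) (P r) ∧
      (P r).real {ω | ∀ x ∈ K, (cluster ω univ x).Finite} *
        ∫ ω, Real.exp (cond ω K / (16 * d)) ∂(P r) ≤ 1) ∧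
    (∀ (r : V d → unitInterval) (s : Finset (V d)) (K L : Set (V d)), (∀ y ∈ L, y ∉ K) →
      Integrable (fun ω => condIn ω s K L) (P r) ∧
      Integrable (fun ω => Real.exp (condIn ω s K L / (16 * d))) (P r) ∧
      (P r).real {ω | ∀ x ∈ K, ∀ y ∈ L, y ∉ cluster ω s x} *
        ∫ ω, Real.exp (condIn ω s K L / (16 * d)) ∂(P r) ≤ 1) ∧
    (∃ C : ℝ, 1 ≤ C ∧ ∀ (p : unitInterval), p ≤ pc d →
      ∀ (R k N : ℕ) (u v : V d), 1 ≤ R →
        C * ((k : ℝ) + 1) ^ (2 * d ^ 2 + 3 * d) * R ≤ √(N : ℝ) →
        u ∈ box 0 N → v ∈ box 0 N → (∃ a, (N : ℤ) ≤ 2 * |u a - v a|) →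
        ∫ ω, condIn ω (box 0 (R * N)) (box u k) (box v k) ∂(P fun _ : V d => p) ≤
          16 * d * Real.log (4 * 10 ^ 14 * R)) ∧
    (3 ≤ d → ∃ (A : ℕ) (c C : ℝ), 0 < c ∧ 0 < C ∧
      (∀ (k : ℕ) (p : unitInterval), (p : ℝ) ≤ pc d + c / ((k : ℝ) + 2) ^ A →
        ∫ ω, Real.exp (cond ω (box (0 : V d) k) / (16 * d)) ∂(P fun _ : V d => p) ≤
          C * ((k : ℝ) + 2) ^ A ∧
        ∫ ω, cond ω (box (0 : V d) k) ∂(P fun _ : V d => p) ≤ C * Real.log ((k : ℝ) + 2)) ∧
      (∀ p : unitInterval, p ≤ pc d → ∀ M : ℕ, ∀ᵐ ω ∂(P fun _ : V d => p),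
        ∃ k0 : ℕ, ∀ k : ℕ, k0 ≤ k → ∀ z ∈ box (0 : V d) (k ^ M),
          cond ω (box z k) ≤ C * (M + 1) * Real.log ((k : ℝ) + 2)) ∧
      (∀ p : unitInterval, p ≤ pc d → ∀ᵐ ω ∂(P fun _ : V d => p),
        ∃ k0 : ℕ, ∀ k : ℕ, k0 ≤ k → ∀ B ⊆ box (0 : V d) k,
          (B.card : ℝ) / (C * Real.log ((k : ℝ) + 2)) ≤
            (∑ x ∈ B, ∑ t ∈ Finset.range ((k + 2) ^ A), ∑ y ∈ B, heat ω t x y) / B.card) ∧
      (∀ (T : ℕ) (p : unitInterval), 2 ≤ T → (p : ℝ) ≤ pc d + c / (T : ℝ) ^ A →
        C ≤ theta d p ^ 2 * T →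
        c * theta d p ^ 2 / Real.log T ≤ ∑ t ∈ Finset.Icc T (T ^ A),
          ∫ ω in {ω : V d → Bool | (cluster ω univ 0).Infinite}, heat ω (2 * t) 0 0
            ∂(P fun _ : V d => p))) := by
  have hd0 : 0 < d := by omega
  refine ⟨fun r K hK => ?_, fun r s K L hKL => ?_, ?_, fun hd3 => ?_⟩
  · exact Pool.Agent.H580.EC.exp_cond hd0 r hK
  · obtain ⟨h1, h2, h3⟩ := Pool.Agent.H580.EC.exp_condIn hd0 r s hKL
    refine ⟨h1, h2, ?_⟩
    have e : {ω : V d → Bool | ∀ x ∈ K, ∀ y ∈ L, y ∉ cluster ω s x} =
        {ω | Pool.Agent.H580.EC.Dis K L (Pool.Agent.H580.EC.op ω s)} := by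
      ext ω
      exact (Pool.Agent.H580.EC.dis_iff hKL).symm
    rw [e]
    exact h3
  · obtain ⟨C, hC, h⟩ := Pool.Agent.H580.EC.pair_bound hd
    exact ⟨C, hC, fun p hp R k N u v hR hCN hu hv hdist =>
      (h p hp R k N u v hR hCN hu hv hdist).2⟩
  · obtain ⟨A1, c1, C1, hc1, hc11, hC1, h1⟩ := Pool.Agent.H580.EC.cond_bounds hd3
    obtain ⟨C2, hC2, h2⟩ := Pool.Agent.H580.EC.as_bound hd3
    obtain ⟨A3, c3, C3, hc3, hC3, h3⟩ := Pool.Agent.H580.EC.ret_sum hd3
    obtain ⟨A4, C4, hC4, h4⟩ := Pool.Agent.H580.EC.quenched hd3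
    obtain ⟨C, hC⟩ : ∃ C, C = 1 / c1 + C1 + C2 + C3 + C4 := ⟨_, rfl⟩
    have hC0 : 0 < C := by rw [hC]; positivity
    have hCc : 1 / c1 ≤ C := by rw [hC]; linarith
    have hCC1 : C1 ≤ C := by
      have : 0 < 1 / c1 := by positivity
      rw [hC]; linarith
    have hCC2 : C2 ≤ C := by
      have : 0 < 1 / c1 := by positivity
      rw [hC]; linarith
    have hCC3 : C3 ≤ C := by
      have : 0 < 1 / c1 := by positivity
      rw [hC]; linarith
    have hCC4 : C4 ≤ C := by
      have : 0 < 1 / c1 := by positivity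
      rw [hC]; linarith
    refine ⟨A1 + A3 + A4, min c1 c3, C, by positivity, hC0, fun k p hp => ?_, fun p hp M => ?_,
      fun p hp => ?_, fun T p hT hp hθ => ?_⟩
    · have hk2 : (1 : ℝ) ≤ (k : ℝ) + 2 := by
        have : (0 : ℝ) ≤ k := Nat.cast_nonneg k
        linarith
      have hA : ((k : ℝ) + 2) ^ A1 ≤ ((k : ℝ) + 2) ^ (A1 + A3 + A4) :=
        pow_le_pow_right₀ hk2 (by omega)
      obtain ⟨-, g1, g2⟩ := h1 k p (hp.trans (add_le_add le_rfl
        (div_le_div₀ hc1.le (min_le_left _ _) (by positivity) hA)))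
      refine ⟨g1.trans ?_, g2.trans ?_⟩
      · rw [div_eq_inv_mul, ← one_div]
        exact mul_le_mul hCc hA (by positivity) hC0.le
      · exact mul_le_mul_of_nonneg_right hCC1 (Real.log_nonneg hk2)
    · filter_upwards [h2 p hp M] with ω hω
      obtain ⟨k0, hk0⟩ := hω
      refine ⟨k0, fun k hk z hz => (hk0 k hk z hz).trans ?_⟩
      have hk2 : (1 : ℝ) ≤ (k : ℝ) + 2 := by
        have : (0 : ℝ) ≤ k := Nat.cast_nonneg k
        linarith
      have := Real.log_nonneg hk2
      gcongr
    · filter_upwards [h4 p hp] with ω hω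
      obtain ⟨k0, hk0⟩ := hω
      refine ⟨k0, fun k hk B hB => ?_⟩
      have g1 := hk0 k hk B hB
      have hk2 : (1 : ℝ) < (k : ℝ) + 2 := by
        have : (0 : ℝ) ≤ k := Nat.cast_nonneg k
        linarith
      have hlog := Real.log_pos hk2
      have hheat : ∀ t x y, 0 ≤ heat ω t x y := fun t x y => by
        rw [heat_eq]
        exact Pool.Agent.H580.EC.heat_nonneg hd0 ω t x y
      have hpos : ∀ t, 0 ≤ ∑ x ∈ B, ∑ y ∈ B, heat ω t x y := fun t =>
        Finset.sum_nonneg fun x _ => Finset.sum_nonneg fun y _ => hheat t x y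
      have g2 : ∑ t ∈ Finset.range ((k + 2) ^ A4), ∑ x ∈ B, ∑ y ∈ B,
          Pool.Agent.H979.PC.heat ω t x y ≤
          ∑ x ∈ B, ∑ t ∈ Finset.range ((k + 2) ^ (A1 + A3 + A4)), ∑ y ∈ B, heat ω t x y := by
        rw [Finset.sum_comm (s := B) (t := Finset.range ((k + 2) ^ (A1 + A3 + A4)))]
        have e : ∑ t ∈ Finset.range ((k + 2) ^ A4), ∑ x ∈ B, ∑ y ∈ B,
            Pool.Agent.H979.PC.heat ω t x y =
            ∑ t ∈ Finset.range ((k + 2) ^ A4), ∑ x ∈ B, ∑ y ∈ B, heat ω t x y :=
          Finset.sum_congr rfl fun t _ => Finset.sum_congr rfl fun x _ =>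
            Finset.sum_congr rfl fun y _ => (heat_eq ω t x y).symm
        rw [e]
        exact Finset.sum_le_sum_of_subset_of_nonneg
          (Finset.range_subset_range.2 (Nat.pow_le_pow_right (by omega) (by omega)))
          fun t _ _ => hpos t
      obtain ⟨G, hG⟩ : ∃ G, G = ∑ x ∈ B, ∑ t ∈ Finset.range ((k + 2) ^ (A1 + A3 + A4)),
        ∑ y ∈ B, heat ω t x y := ⟨_, rfl⟩
      rw [← hG] at g2 ⊢
      have hG0 : 0 ≤ G := by
        rw [hG]
        exact Finset.sum_nonneg fun x _ => Finset.sum_nonneg fun t _ =>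
          Finset.sum_nonneg fun y _ => hheat t x y
      have g3 : (B.card : ℝ) ^ 2 ≤ C * Real.log ((k : ℝ) + 2) * G := by
        refine g1.trans (mul_le_mul ?_ g2 ?_ (by positivity))
        · exact mul_le_mul_of_nonneg_right hCC4 hlog.le
        · exact Finset.sum_nonneg fun t _ => Finset.sum_nonneg fun x _ =>
            Finset.sum_nonneg fun y _ => Pool.Agent.H580.EC.heat_nonneg hd0 ω t x y
      rcases Nat.eq_zero_or_pos B.card with hB0 | hB0
      · rw [hB0]
        simp
      · have hB1 : (0 : ℝ) < B.card := by exact_mod_cast hB0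
        rw [div_le_div_iff₀ (by positivity) hB1]
        linarith
    · simp only [uu_eq]
      have hT1 : (1 : ℝ) ≤ T := by
        have : (2 : ℝ) ≤ T := by exact_mod_cast hT
        linarith
      have hA : (T : ℝ) ^ A3 ≤ (T : ℝ) ^ (A1 + A3 + A4) := pow_le_pow_right₀ hT1 (by omega)
      have g := h3 T p hT (hp.trans (add_le_add le_rfl
        (div_le_div₀ hc3.le (min_le_right _ _) (by positivity) hA))) (hCC3.trans hθ)
      have hlog : 0 ≤ Real.log T := Real.log_nonneg hT1
      have g2 : min c1 c3 * theta d p ^ 2 / Real.log T ≤ c3 * theta d p ^ 2 / Real.log T := by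
        have := min_le_right c1 c3
        gcongr
      refine (g2.trans g).trans ?_
      refine Finset.sum_le_sum_of_subset_of_nonneg ?_ fun j _ _ =>
        Pool.Agent.H580.EC.uu_nonneg hd0 p j
      exact Finset.Icc_subset_Icc_right (Nat.pow_le_pow_right (by omega) (by omega))

end

end Pool.Agent.Results.MP_e13933_pr.LogConductance
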