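import Pool.Graph.R_seed8.Results.MP_e13933_pr.NoGiantCluster
import Pool.Graph.R_seed8.Results.MP_e13933_pr.PolynomialDisconnection
import Pool.Graph.R_seed8.Results.MP_e13933_pr.MajorityBelow
import Pool.Agent.H246.SM.Prob
import Pool.Agent.H246.SM.Inf
import Pool.Agent.H246.SM.Whole

set_option autoImplicit false

open MeasureTheory Set Filter
open scoped Topology

/-!
Site percolation on `Z^d` at and near the critical point: giant clusters have random separators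
with square summable occupation probabilities, and on every giant set of open vertices of a box of
radius `n` the Poincare inequality can only hold with a constant of order at least
`n ^ d / (log n)^2` (for `p > p_c` the constant is of order `n^2` on the infinite cluster).
-/

namespace Pool.Agent.Results.MP_e13933_pr.SlowMixing

noncomputable section

/-- Vertices of `Z^d`. -/
abbrev V (d : ℕ) : Type := Fin d → ℤ

/-- The open subgraph inside the region `S`: two vertices at Euclidean distance one are joined if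
both are open (`ω x = true`) and in `S`. -/
def openGraph {d : ℕ} (ω : V d → Bool) (S : Set (V d)) : SimpleGraph (V d) where
  Adj x y := ∑ i, |x i - y i| = 1 ∧ (x ∈ S ∧ ω x = true) ∧ (y ∈ S ∧ ω y = true)
  symm := ⟨fun x y ⟨h1, h2, h3⟩ => ⟨by simpa only [abs_sub_comm] using h1, h3, h2⟩⟩
  loopless := ⟨fun x h => by simpa using h.1⟩

/-- The open cluster of `x` inside the region `S` (empty if `x` is closed). -/
def cluster {d : ℕ} (ω : V d → Bool) (S : Set (V d)) (x : V d) : Set (V d) :=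
  {y | (ω x = true ∧ x ∈ S) ∧ (openGraph ω S).Reachable x y}

/-- Site percolation with parameter `p`: all vertices are open with probability `p`,
independently. -/
def P (d : ℕ) (p : unitInterval) : Measure (V d → Bool) :=
  Measure.infinitePi (fun _ : V d =>
    ENNReal.ofReal (p : ℝ) • Measure.dirac true + ENNReal.ofReal (1 - (p : ℝ)) • Measure.dirac false)

/-- The percolation probability `θ_d(p)`. -/
def theta (d : ℕ) (p : unitInterval) : ℝ := (P d p).real {ω | (cluster ω univ 0).Infinite}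

/-- The critical point `p_c(d)`, the supremum of the parameters with `θ_d(p) = 0`. -/
def pc (d : ℕ) : unitInterval :=
  ⟨sSup {t : ℝ | ∃ q : unitInterval, (q : ℝ) = t ∧ theta d q = 0}, by
    constructor
    · apply Real.sSup_nonneg
      rintro x ⟨q, rfl, _⟩
      exact q.2.1
    · apply Real.sSup_le
      · rintro x ⟨q, rfl, _⟩
        exact q.2.2
      · exact zero_le_one⟩

/-- The box of radius `m` around the vertex `z`; it has `(2 * m + 1) ^ d` vertices. -/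
def box {d : ℕ} (z : V d) (m : ℕ) : Finset (V d) :=
  Fintype.piFinset fun i => Finset.Icc (z i - m) (z i + m)

/-- The open vertices of the box of radius `m` around the origin. -/
def opens {d : ℕ} (ω : V d → Bool) (m : ℕ) : Finset (V d) :=
  (box 0 m).filter fun x => ω x = true

/-- The number of the vertices of the box of radius `N` around the origin which are at (sup norm)
distance at most `k` from the set `G`. -/
def near {d : ℕ} (N k : ℕ) (G : Set (V d)) : ℕ :=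
  {y : V d | y ∈ box 0 N ∧ ∃ z ∈ G, z ∈ box y k}.ncard

/-- The configuration in which the vertices in `T` are closed and the others are unchanged. -/
def close {d : ℕ} (T : Finset (V d)) (ω : V d → Bool) : V d → Bool :=
  fun x => if x ∈ T then false else ω x

/-- There is a random set `T` of open vertices of the box of radius `m`, with the law `μ`, such
that after closing the vertices in `T` all open clusters of the box have size at most `a`, and
the sum over the open vertices `x` of `(P (x ∈ T)) ^ 2` is at most `M`. -/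
def Separated {d : ℕ} (ω : V d → Bool) (m : ℕ) (size : Set (V d) → ℕ) (a M : ℝ) : Prop :=
  ∃ μ : Finset (V d) → ℝ, (∀ T, 0 ≤ μ T) ∧ ∑ T ∈ (opens ω m).powerset, μ T = 1 ∧
    (∀ T ∈ (opens ω m).powerset, 0 < μ T →
      ∀ x, (size (cluster (close T ω) (box (0 : V d) m : Finset (V d)) x) : ℝ) ≤ a) ∧
    ∑ x ∈ opens ω m, (∑ T ∈ (opens ω m).powerset with x ∈ T, μ T) ^ 2 ≤ M

/-- The Dirichlet energy of `f` on the set `S`: the sum of `(f x - f y) ^ 2` over the edges of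
`Z^d` with both ends in `S`. -/
def energy {d : ℕ} (S : Finset (V d)) (f : V d → ℝ) : ℝ :=
  ∑ x ∈ S, ∑ i : Fin d, if x + Pi.single i 1 ∈ S then (f (x + Pi.single i 1) - f x) ^ 2 else 0

/-- The (weak) Poincare inequality for the set `G` in the set `S`, with the constant `A`. -/
def Poincare {d : ℕ} (S G : Finset (V d)) (A : ℝ) : Prop :=
  ∀ f : V d → ℝ, ∑ x ∈ G, (f x - (∑ y ∈ G, f y) / G.card) ^ 2 ≤ A * energy S f

open Classical in
/-- The lazy ant in the labyrinth `S` (a random walk on the set `S` of vertices): the probability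
that the ant started at `x` is at `y` after `τ` steps.  At each step the ant does nothing with
probability `1 / 2`, and otherwise it chooses one of the `2 d` neighbours of its position with equal
probabilities, moves there if this neighbour belongs to `S`, and does not move otherwise. -/
def ant {d : ℕ} (S : Set (V d)) : ℕ → V d → V d → ℝ
  | 0, x, y => if x = y then 1 else 0
  | τ + 1, x, y => (ant S τ x y + (∑ i : Fin d,
      ((if x + Pi.single i 1 ∈ S then ant S τ (x + Pi.single i 1) y else ant S τ x y) +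
      (if x - Pi.single i 1 ∈ S then ant S τ (x - Pi.single i 1) y else ant S τ x y))) /
        (2 * d)) / 2

/-- The overlap of the laws of the ants started at `x` and `y` after `τ` steps: one minus their
distance in total variation. -/
def overlap {d : ℕ} (S : Set (V d)) (τ : ℕ) (x y : V d) : ℝ :=
  ∑' z, min (ant S τ x z) (ant S τ y z)

open Classical in
/-- `G` mixes slowly in `S`, on the time scale `A`: the Poincare inequality with the constant `A`
fails, and for every time `τ ≥ 1` there are at least `c` pairs of vertices of `G` such that the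
laws after `τ` steps of the two ants started at these vertices have an overlap at most `τ / A`. -/
def Slow {d : ℕ} (S G : Finset (V d)) (A c : ℝ) : Prop :=
  ¬ Poincare S G A ∧ ∀ τ : ℕ, 1 ≤ τ →
    c ≤ (((G ×ˢ G).filter fun p => overlap (S : Set (V d)) τ p.1 p.2 ≤ τ / A).card : ℝ)

open Classical in
/-- The vertices of the box of radius `n` which belong to infinite clusters. -/
def infs {d : ℕ} (ω : V d → Bool) (n : ℕ) : Finset (V d) :=
  (box 0 n).filter fun x => (cluster ω univ x).Infinite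

open Pool.Agent.H580.EC (wt pr pr_nonneg IsProb qq Q gr op real_opA)
open Pool.Agent.H246.SM

/-- A set of open vertices with small random separators has no good Poincare inequality. -/
lemma not_poincare {d : ℕ} {s S G U : Finset (V d)} {A : Finset (V d) → Prop}
    {ν : Finset (V d) → ℝ} (hν : IsProb s A ν) {π : V d → V d}
    (hπ : ∀ u ∈ U, π u ∈ G)
    {κ : ℕ} (hκ : ∀ z ∈ G, (U.filter fun u => π u = z).card ≤ κ) {η : ℝ} (hη : 0 ≤ η)
    (hcl : ∀ T, T ⊆ s → A T → ∀ x ∈ U, ∀ F : Finset (V d),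
      (∀ y ∈ F, y ∈ U ∧ (gr (S ∩ T)).Reachable (π x) (π y)) →
      (F.card : ℝ) ≤ (1 - η) * U.card)
    {L : ℕ} (hL : U.card < 2 ^ L) {M a : ℝ} (hM : ∑ x ∈ S, qq s ν x ^ 2 ≤ M) (ha : 0 ≤ a)
    (hnum : 2048 * d * κ * L ^ 2 * a * M < η ^ 2 * U.card) : ¬ Poincare S G a := by
  classical
  intro hP
  obtain ⟨f, h1, h2⟩ := core (S := S) hν hπ hκ hη (fun T hT hA x hx => hcl T hT hA x hx _
    fun y hy => Finset.mem_filter.1 hy) hL
  have h3 := h2 ((∑ y ∈ G, f y) / G.card)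
  have h4 : ∑ x ∈ G, (f x - (∑ y ∈ G, f y) / G.card) ^ 2 ≤ a * (4 * d * M) :=
    (hP f).trans (mul_le_mul_of_nonneg_left (h1.trans
      (mul_le_mul_of_nonneg_left hM (by positivity))) ha)
  have h5 : 512 * κ * (L : ℝ) ^ 2 * ∑ x ∈ G, (f x - (∑ y ∈ G, f y) / G.card) ^ 2 ≤
      512 * κ * L ^ 2 * (a * (4 * d * M)) := mul_le_mul_of_nonneg_left h4 (by positivity)
  have h6 : 512 * (κ : ℝ) * L ^ 2 * (a * (4 * d * M)) = 2048 * d * κ * L ^ 2 * a * M := by ring
  linarith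

lemma ant_eq' {d : ℕ} (S : Set (V d)) (τ : ℕ) (x y : V d) :
    ant S τ x y = Pool.Agent.H246.SM.ants S τ x y := by
  induction τ generalizing x with
  | zero => rfl
  | succ τ ih =>
    unfold ant Pool.Agent.H246.SM.ants
    simp only [ih]

lemma overlap_eqs {d : ℕ} (S : Set (V d)) (τ : ℕ) (x y : V d) :
    overlap S τ x y = Pool.Agent.H246.SM.overlaps S τ x y := by
  unfold overlap Pool.Agent.H246.SM.overlaps
  simp only [ant_eq']

lemma overlap_eq {d : ℕ} (S : Finset (V d)) (τ : ℕ) {x : V d} (hx : x ∈ S) (y : V d) :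
    overlap (S : Set (V d)) τ x y = Pool.Agent.H246.SM.overlap S τ x y :=
  (overlap_eqs _ _ _ _).trans (overlaps_coe S τ hx y)

open Classical in
lemma pairs_eq {d : ℕ} {S G : Finset (V d)} (hG : G ⊆ S) (τ : ℕ) (a : ℝ) :
    ((G ×ˢ G).filter fun p => overlap (S : Set (V d)) τ p.1 p.2 ≤ a) =
      ((G ×ˢ G).filter fun p => Pool.Agent.H246.SM.overlap S τ p.1 p.2 ≤ a) := by
  refine Finset.filter_congr fun p hp => ?_
  rw [overlap_eq S τ (hG (Finset.mem_product.1 hp).1)]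

/-- A closed vertex is connected to itself only. -/
lemma reach_eq {d : ℕ} {T : Finset (V d)} {x y : V d} (h : (gr T).Reachable x y) (hx : x ∉ T) :
    x = y := by
  obtain ⟨w⟩ := h
  cases w with
  | nil => rfl
  | cons h _ => exact absurd h.2.1 hx

/-- the configuration whose open vertices are those in `T` -/
def ind {d : ℕ} (T : Finset (V d)) : V d → Bool := fun x => decide (x ∈ T)

lemma reach_cluster {d : ℕ} {S T B : Finset (V d)} (hS : S ⊆ B) {x y : V d}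
    (h : (gr (S ∩ T)).Reachable x y) (hx : x ∈ T) (hxB : x ∈ B) :
    y ∈ cluster (ind T) (B : Set (V d)) x := by
  refine ⟨⟨by simpa [ind] using hx, hxB⟩, h.mono ?_⟩
  intro a b hab
  have h1 := Finset.mem_inter.1 hab.2.1
  have h2 := Finset.mem_inter.1 hab.2.2
  exact ⟨hab.1, ⟨hS h1.1, by simpa [ind] using h1.2⟩, ⟨hS h2.1, by simpa [ind] using h2.2⟩⟩

lemma mem_box {d : ℕ} {z x : V d} {m : ℕ} : x ∈ box z m ↔ ∀ i, |x i - z i| ≤ m := by
  unfold box
  rw [Fintype.mem_piFinset]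
  refine forall_congr' fun i => ?_
  rw [Finset.mem_Icc, abs_le]
  constructor
  · rintro ⟨h1, h2⟩
    constructor <;> linarith
  · rintro ⟨h1, h2⟩
    constructor <;> linarith

lemma card_box {d : ℕ} (z : V d) (m : ℕ) : (box z m).card = (2 * m + 1) ^ d := by
  unfold box
  rw [Fintype.card_piFinset]
  simp only [Int.card_Icc]
  have : ∀ i ∈ (Finset.univ : Finset (Fin d)), (z i + m + 1 - (z i - m)).toNat = 2 * m + 1 := by
    intro i _
    omega
  rw [Finset.prod_congr rfl this, Finset.prod_const, Finset.card_univ, Fintype.card_fin]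

lemma opens_eq {d : ℕ} (ω : V d → Bool) (m : ℕ) : opens ω m = op ω (box 0 m) := rfl

lemma cluster_subset {d : ℕ} (ω : V d → Bool) (S : Set (V d)) (x : V d) : cluster ω S x ⊆ S := by
  rintro y ⟨⟨-, hx⟩, ⟨q⟩⟩
  rcases q.reverse with _ | ⟨h, -⟩
  · exact hx
  · exact h.2.1.1

lemma openGraph_mono {d : ℕ} {ω ω' : V d → Bool} {S : Set (V d)}
    (h : ∀ x ∈ S, ω x = true → ω' x = true) : openGraph ω S ≤ openGraph ω' S :=
  fun _ _ hxy => ⟨hxy.1, ⟨hxy.2.1.1, h _ hxy.2.1.1 hxy.2.1.2⟩, ⟨hxy.2.2.1, h _ hxy.2.2.1 hxy.2.2.2⟩⟩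

lemma cluster_mono {d : ℕ} {ω ω' : V d → Bool} {S : Set (V d)}
    (h : ∀ x ∈ S, ω x = true → ω' x = true) (x : V d) : cluster ω S x ⊆ cluster ω' S x :=
  fun _ hy => ⟨⟨h _ hy.1.2 hy.1.1, hy.1.2⟩, hy.2.mono (openGraph_mono h)⟩

lemma ind_true {d : ℕ} {T : Finset (V d)} {x : V d} : ind T x = true ↔ x ∈ T := by
  unfold ind
  rw [decide_eq_true_iff]

lemma cluster_ind_le {d : ℕ} {ω : V d → Bool} {T B : Finset (V d)}
    (h : ∀ x ∈ B, ω x = true → x ∈ T) (x : V d) :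
    cluster ω (B : Set (V d)) x ⊆ cluster (ind T) (B : Set (V d)) x :=
  cluster_mono (fun y hy h1 => ind_true.2 (h y hy h1)) x

lemma cluster_le_ind {d : ℕ} {ω : V d → Bool} {T B : Finset (V d)}
    (h : ∀ x ∈ B, x ∈ T → ω x = true) (x : V d) :
    cluster (ind T) (B : Set (V d)) x ⊆ cluster ω (B : Set (V d)) x :=
  cluster_mono (fun y hy h1 => h y hy (ind_true.1 h1)) x

lemma cluster_ind_mono {d : ℕ} {T T' : Finset (V d)} (h : T ⊆ T') (S : Set (V d)) (x : V d) :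
    cluster (ind T) S x ⊆ cluster (ind T') S x :=
  cluster_mono (fun _ _ hy => ind_true.2 (h (ind_true.1 hy))) x

lemma cluster_empty {d : ℕ} (S : Set (V d)) (x : V d) :
    cluster (ind (∅ : Finset (V d))) S x = ∅ := by
  ext y
  simp [cluster, ind]

/-- A way to measure the size of subsets of the box of radius `m`: by sampling with multiplicity at
most `κ`. -/
structure Sampled (d m κ u : ℕ) (size : Set (V d) → ℕ) : Prop where
  mono : ∀ C C' : Set (V d), C ⊆ C' → C' ⊆ (box (0 : V d) m : Finset (V d)) → size C ≤ size C'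
  empty : size ∅ = 0
  sample : ∀ G : Finset (V d), G ⊆ box 0 m → ∃ (U : Finset (V d)) (π : V d → V d),
    U.card = size G ∧ U.card ≤ u ∧ (∀ x ∈ U, π x ∈ G) ∧
    (∀ z ∈ G, (U.filter fun x => π x = z).card ≤ κ) ∧
    ∀ C : Set (V d), C ⊆ (box (0 : V d) m : Finset (V d)) → ∀ F : Finset (V d),
      (∀ y ∈ F, y ∈ U ∧ π y ∈ C) → F.card ≤ size C

/-- all clusters have size at most `a` -/
def Ev (d m : ℕ) (size : Set (V d) → ℕ) (a : ℝ) (T : Finset (V d)) : Prop :=
  ∀ x, (size (cluster (ind T) (box (0 : V d) m : Finset (V d)) x) : ℝ) ≤ a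

/-- the separators are pushed forward -/
lemma separated_of {d m κ u : ℕ} {size : Set (V d) → ℕ} (hs : Sampled d m κ u size) {a M : ℝ}
    {ω : V d → Bool} {ν : Finset (V d) → ℝ} (hν : IsProb (box 0 m) (Ev d m size a) ν)
    (hM : ∑ x ∈ opens ω m, qq (box 0 m) ν x ^ 2 ≤ M) : Separated ω m size a M := by
  classical
  have hmaps : ∀ T' ∈ (box (0 : V d) m).powerset, opens ω m \ T' ∈ (opens ω m).powerset :=
    fun T' _ => Finset.mem_powerset.2 Finset.sdiff_subset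
  refine ⟨fun T => ∑ T' ∈ (box (0 : V d) m).powerset with opens ω m \ T' = T, ν T',
    fun T => Finset.sum_nonneg fun T' _ => hν.nonneg _, ?_, ?_, ?_⟩
  · rw [Finset.sum_fiberwise_of_maps_to hmaps, hν.sum]
  · intro T hT h x
    obtain ⟨T', hT', h2⟩ := Finset.exists_ne_zero_of_sum_ne_zero h.ne'
    rw [Finset.mem_filter] at hT'
    refine le_trans ?_ ((hν.supp T' h2).2 x)
    refine Nat.cast_le.2 (hs.mono _ _ (cluster_ind_le ?_ x) (cluster_subset _ _ _))
    intro y hy h3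
    unfold close at h3
    split_ifs at h3 with h4
    by_contra h5
    apply h4
    rw [← hT'.2, Finset.mem_sdiff]
    exact ⟨Finset.mem_filter.2 ⟨hy, h3⟩, h5⟩
  · refine le_trans (Finset.sum_le_sum fun x hx => le_of_eq ?_) hM
    congr 1
    unfold qq
    rw [Finset.sum_filter]
    have e : ∀ T' ∈ (box (0 : V d) m).powerset, (if x ∈ T' then 0 else ν T') =
        if x ∈ opens ω m \ T' then ν T' else 0 := by
      intro T' _
      by_cases h : x ∈ T' <;> simp [h, hx]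
    rw [Finset.sum_congr rfl e, ← Finset.sum_fiberwise_of_maps_to hmaps]
    refine Finset.sum_congr rfl fun T _ => ?_
    by_cases h : x ∈ T
    · rw [if_pos h]
      refine Finset.sum_congr rfl fun T' hT' => ?_
      rw [(Finset.mem_filter.1 hT').2, if_pos h]
    · rw [if_neg h]
      symm
      refine Finset.sum_eq_zero fun T' hT' => ?_
      rw [(Finset.mem_filter.1 hT').2, if_neg h]

/-- the logarithm of the volume -/
def KL (d R : ℕ) : ℝ := 2 * (d * (2 * R + 1) + 1)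

lemma log_card {d R n u : ℕ} (hR : 1 ≤ R) (hn : 1 ≤ n) (hu : u ≤ (2 * (R * n) + 1) ^ d) :
    u < 2 ^ (Nat.log 2 u + 1) ∧
      ((Nat.log 2 u + 1 : ℕ) : ℝ) ≤ KL d R * Real.log ((n : ℝ) + 1) := by
  refine ⟨Nat.lt_pow_succ_log_self (by norm_num) u, ?_⟩
  have hn' : (1 : ℝ) ≤ n := by exact_mod_cast hn
  have hR' : (1 : ℝ) ≤ R := by exact_mod_cast hR
  have hl2 : (1 / 2 : ℝ) < Real.log 2 := by
    have := Real.log_two_gt_d9
    linarith
  obtain ⟨l, hl⟩ : ∃ l, l = Real.log ((n : ℝ) + 1) := ⟨_, rfl⟩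
  have hll : Real.log 2 ≤ l := by
    rw [hl]
    exact Real.log_le_log (by norm_num) (by linarith)
  rw [← hl]
  have h2R : Real.log (2 * R) ≤ 2 * R * l := by
    have h1 : Real.log (2 * R) ≤ 2 * R * Real.log 2 := by
      have h2 : ((2 * R : ℕ) : ℝ) ≤ (2 : ℝ) ^ (2 * R) := by
        exact_mod_cast (Nat.lt_two_pow_self (n := 2 * R)).le
      have h3 := Real.log_le_log (by positivity) h2
      rw [Real.log_pow] at h3
      push_cast at h3
      exact h3
    nlinarith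
  have h1 : Real.log (2 * (R * n) + 1) ≤ (2 * R + 1) * l := by
    have h2 : Real.log (2 * (R * n) + 1) ≤ Real.log (2 * R * (n + 1)) :=
      Real.log_le_log (by positivity) (by nlinarith)
    rw [Real.log_mul (by positivity) (by positivity), ← hl] at h2
    linarith
  have hlogn : (Nat.log 2 u : ℝ) * Real.log 2 ≤ d * ((2 * R + 1) * l) := by
    rcases Nat.eq_zero_or_pos u with h | h
    · rw [h, Nat.log_zero_right]
      push_cast
      rw [zero_mul]
      have : 0 ≤ l := by linarith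
      positivity
    · have h3 : ((2 ^ Nat.log 2 u : ℕ) : ℝ) ≤ (2 * (R * n) + 1) ^ d := by
        have := (Nat.pow_log_le_self 2 h.ne').trans hu
        exact_mod_cast this
      have h4 := Real.log_le_log (by positivity) h3
      push_cast at h4
      rw [Real.log_pow, Real.log_pow] at h4
      exact h4.trans (mul_le_mul_of_nonneg_left h1 (Nat.cast_nonneg _))
  unfold KL
  push_cast
  have h0 : (0 : ℝ) ≤ Nat.log 2 u := Nat.cast_nonneg _
  nlinarith

/-- the constants -/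
def K0 (d R : ℕ) (c : ℝ) : ℝ := 4 * (1 + 2 * Real.log (1 / c) + Kp (pc d) * (3 * R) ^ d)

def Kc (d R : ℕ) (c η δ : ℝ) : ℝ :=
  K0 d R c + 1 + 16384 * d * KL d R ^ 2 * K0 d R c * 2 ^ d / (η ^ 2 * δ)

lemma pc_lt_one (d : ℕ) (hd : 2 ≤ d) : (pc d : ℝ) < 1 := MajorityBelow.pc_lt_one d hd

lemma pc_pos (d : ℕ) : 0 < (pc d : ℝ) := by
  have h : pc d = MajorityBelow.pc d := rfl
  rw [h, MajorityBelow.pc_eq]
  exact Pool.Agent.Y333.CB.pc_pos d _ Pool.Agent.Y990.CB.nd_site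

instance prob (d : ℕ) (p : unitInterval) : IsProbabilityMeasure (P d p) :=
  inferInstanceAs (IsProbabilityMeasure (Pool.Agent.R959.GF.ms d p))

lemma K0_ge {d R : ℕ} (hd : 2 ≤ d) {c : ℝ} (hc : 0 < c) (hc1 : c ≤ 1) : 0 ≤ Kp (pc d) ∧
    0 ≤ Real.log (1 / c) ∧ 4 ≤ K0 d R c := by
  have h1 : 0 ≤ Kp (pc d) := by
    unfold Kp
    have := pc_pos d
    have : 0 < 1 - (pc d : ℝ) := by linarith [pc_lt_one d hd]
    positivity
  have h2 : 0 ≤ Real.log (1 / c) := by
    refine Real.log_nonneg ?_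
    rw [one_div]
    exact (one_le_inv₀ hc).2 hc1
  refine ⟨h1, h2, ?_⟩
  unfold K0
  have : 0 ≤ Kp (pc d) * (3 * R) ^ d := by positivity
  linarith

lemma Kc_pos {d R : ℕ} (hd : 2 ≤ d) {c η δ : ℝ} (hc : 0 < c) (hc1 : c ≤ 1) (hδ : 0 < δ) :
    0 < Kc d R c η δ := by
  have h := (K0_ge (R := R) hd hc hc1).2.2
  have h1 : 0 ≤ 16384 * d * KL d R ^ 2 * K0 d R c * 2 ^ d / (η ^ 2 * δ) := by
    have : 0 ≤ K0 d R c := by linarith
    positivity
  unfold Kc
  linarith

/-- the constants for the parts with all `R` -/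
def K1 (d : ℕ) (c : ℝ) : ℝ := 4 * (3 + 2 * Real.log (1 / c) + Kp (pc d) * 3 ^ d)

def Kd (d : ℕ) (c η : ℝ) : ℝ := K1 d c + 1 + 16384 * d * KL d 1 ^ 2 * K1 d c * 2 ^ d / η ^ 2

lemma K1_pos {d : ℕ} (hd : 2 ≤ d) {c : ℝ} (hc : 0 < c) (hc1 : c ≤ 1) : 0 < K1 d c := by
  obtain ⟨h1, h2, -⟩ := K0_ge (R := 1) hd hc hc1
  unfold K1
  have : 0 ≤ Kp (pc d) * 3 ^ d := by positivity
  linarith

lemma ev_iff {d m : ℕ} {size : Set (V d) → ℕ} {a : ℝ} (ω : V d → Bool) : Ev d m size a (op ω (box 0 m)) ↔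
      ∀ x, (size (cluster ω (box (0 : V d) m : Finset (V d)) x) : ℝ) ≤ a := by
  have h : ∀ x, cluster (ind (op ω (box 0 m))) (box (0 : V d) m : Finset (V d)) x =
      cluster ω (box (0 : V d) m : Finset (V d)) x := by
    intro x
    refine Subset.antisymm (cluster_le_ind ?_ x) (cluster_ind_le ?_ x)
    · intro y _ h
      exact (Finset.mem_filter.1 h).2
    · intro y hy h
      exact Finset.mem_filter.2 ⟨hy, h⟩
  unfold Ev
  simp only [h]

/-- The main estimate. -/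
lemma main_gen {d n m r κ u : ℕ} (hd : 2 ≤ d) (hn : 1 ≤ n) (hr : 1 ≤ r)
    {size : Set (V d) → ℕ} (hs : Sampled d m κ u size) (hu : u ≤ (2 * (r * n) + 1) ^ d)
    {a b η ζ ϑ δ c : ℝ} (ha : 0 ≤ a) (hζ : 0 < ζ) (hζη : ζ ≤ η) (hη1 : η ≤ 1) (hϑ : ϑ ≤ η - ζ)
    (hab : a ≤ (1 - η) * b)
    (hκb : κ ≤ (1 - η) * b) (hδ : 0 < δ) (hb : δ * (n : ℝ) ^ d ≤ b) (hc : 0 < c) (hc1 : c ≤ 1)
    (hcP : c ≤ (P d (pc d)).real {ω | ∀ x,
      (size (cluster ω (box (0 : V d) m : Finset (V d)) x) : ℝ) ≤ a})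
    {κ' : ℝ} (hκ1 : 1 ≤ κ') (hκ' : κ ≤ 2 ^ d * κ') {p : unitInterval}
    (hp : (p : ℝ) ≤ (1 + pc d) / 2) {t : ℝ} {K₀ K X : ℝ} (hK₀ : 0 < K₀) (hX1 : 1 ≤ X)
    (hMX' : 4 * (t + 2 * Real.log (1 / c) +
      Kp (pc d) * (2 * (m : ℝ) + 1) ^ d * (max ((p : ℝ) - pc d) 0) ^ 2) ≤ K₀ * X)
    (hKc0 : K₀ ≤ K) (hKc1 : 16384 * d * KL d r ^ 2 * K₀ * 2 ^ d < K * (ζ ^ 2 * δ)) :
    (P d p).real {ω | ¬ (
      Separated ω m size a (K * X) ∧
      ∀ G ⊆ opens ω m, b ≤ size G → Slow (opens ω m) G ((n : ℝ) ^ d /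
        (K * X * κ' * Real.log ((n : ℝ) + 1) ^ 2)) (ϑ * (size G / κ) ^ 2))} ≤
      Real.exp (-t) := by
  classical
  have hd1 : (1 : ℝ) ≤ d := by exact_mod_cast (by omega : 1 ≤ d)
  have hη : 0 < η := hζ.trans_le hζη
  have hn' : (1 : ℝ) ≤ n := by exact_mod_cast hn
  have hKL : 0 ≤ KL d r := by unfold KL; positivity
  obtain ⟨l, hl⟩ : ∃ l, l = Real.log ((n : ℝ) + 1) := ⟨_, rfl⟩
  have hl0 : 0 < l := by
    rw [hl]
    exact Real.log_pos (by linarith)
  rw [← hl]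
  have hA0 : Ev d m size a ∅ := by
    intro x
    rw [cluster_empty, hs.empty]
    push_cast
    exact ha
  have hAm : ∀ T T', T ⊆ T' → Ev d m size a T' → Ev d m size a T := by
    intro T T' hT h x
    exact (Nat.cast_le.2 (hs.mono _ _ (cluster_ind_mono hT _ x) (cluster_subset _ _ _))).trans (h x)
  have hcp : c ≤ pr (fun _ => (pc d : ℝ)) (box (0 : V d) m) (Ev d m size a) := by
    have e := real_opA (fun _ : V d => pc d) (box (0 : V d) m) (Ev d m size a)
    rw [← e]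
    refine hcP.trans (le_of_eq ?_)
    simp only [ev_iff]
    rfl
  obtain ⟨ν, hν, hQ⟩ := rand_sep (p := p) (t := t) (pc_pos d) (pc_lt_one d hd) hp hc hc1
    (box (0 : V d) m) hAm hA0 hcp
  obtain ⟨Mq, hMq⟩ : ∃ M, M = 4 * (t + 2 * Real.log (1 / c) +
    Kp (pc d) * (box (0 : V d) m).card * (max ((p : ℝ) - pc d) 0) ^ 2) := ⟨_, rfl⟩
  rw [← hMq] at hQ
  have hMX : Mq ≤ K₀ * X := by
    rw [hMq, card_box]
    push_cast
    exact hMX'
  have hbad : (P d p).real {ω | Mq < Q (box 0 m) (ν (op ω (box 0 m))) (op ω (box 0 m))} ≤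
      Real.exp (-t) := hQ
  refine le_trans (measureReal_mono ?_ (measure_ne_top _ _)) hbad
  intro ω hbω
  by_contra hω
  apply hbω
  show Separated ω m size a (K * X) ∧ ∀ G ⊆ opens ω m, b ≤ size G →
    Slow (opens ω m) G ((n : ℝ) ^ d / (K * X * κ' * l ^ 2)) (ϑ * (size G / κ) ^ 2)
  clear hbω
  · have hω' : ∑ x ∈ opens ω m, qq (box 0 m) (ν (op ω (box 0 m))) x ^ 2 ≤ Mq := not_lt.1 hω
    have hνω := hν (op ω (box 0 m))
    refine ⟨separated_of hs hνω (hω'.trans (hMX.trans ?_)), ?_⟩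
    · exact mul_le_mul_of_nonneg_right hKc0 (by linarith)
    intro G hG hbG
    have hGb : G ⊆ box 0 m := hG.trans (Finset.filter_subset _ _)
    obtain ⟨U, π, h1, h2, h3, h4, h5⟩ := hs.sample G hGb
    have hUb : b ≤ U.card := by rw [h1]; exact hbG
    obtain ⟨g1, g2⟩ := log_card hr hn (h2.trans hu)
    rw [← hl] at g2
    have hK1 : 0 < K := by linarith
    have hcl : ∀ T, T ⊆ box 0 m → Ev d m size a T → ∀ x ∈ U, ∀ F : Finset (V d),
        (∀ y ∈ F, y ∈ U ∧ (gr (opens ω m ∩ T)).Reachable (π x) (π y)) →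
        (F.card : ℝ) ≤ (1 - η) * U.card := by
      intro T hT hA x hx F hF
      have hfin : ∀ y : ℝ, y ≤ (1 - η) * b → y ≤ (1 - η) * U.card := fun y hy =>
        hy.trans (mul_le_mul_of_nonneg_left hUb (by linarith))
      by_cases hxT : π x ∈ T
      · refine hfin _ (le_trans ?_ hab)
        refine le_trans (Nat.cast_le.2 (h5 (cluster (ind T) (box (0 : V d) m : Finset (V d)) (π x))
          (cluster_subset _ _ _) F fun y hy => ⟨(hF y hy).1, ?_⟩)) (hA (π x))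
        exact reach_cluster (Finset.filter_subset _ _) (hF y hy).2 hxT (hGb (h3 x hx))
      · refine hfin _ (le_trans ?_ hκb)
        refine Nat.cast_le.2 ((Finset.card_le_card ?_).trans (h4 (π x) (h3 x hx)))
        intro y hy
        rw [Finset.mem_filter]
        refine ⟨(hF y hy).1, (reach_eq (hF y hy).2 ?_).symm⟩
        exact fun h => hxT (Finset.mem_inter.1 h).2
    have hL2 : (((Nat.log 2 U.card + 1 : ℕ) : ℝ)) ^ 2 ≤ (KL d r * l) ^ 2 :=
      pow_le_pow_left₀ (Nat.cast_nonneg _) g2 2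
    have hnn : 0 ≤ KL d r ^ 2 * K₀ * 2 ^ d := by positivity
    refine ⟨not_poincare (S := opens ω m) (M := Mq) hνω h3 h4 hη.le hcl g1 hω' (by positivity) ?_,
      fun τ hτ => ?_⟩
    · have hKc2 : 2048 * d * KL d r ^ 2 * K₀ * 2 ^ d < K * (η ^ 2 * δ) := by
        refine lt_of_le_of_lt ?_ (hKc1.trans_le ?_)
        · have : 0 ≤ d * (KL d r ^ 2 * K₀ * 2 ^ d) := by positivity
          linarith
        · have h6 : ζ ^ 2 ≤ η ^ 2 := pow_le_pow_left₀ hζ.le hζη 2
          gcongr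
      obtain ⟨A, hA⟩ : ∃ A, A = (n : ℝ) ^ d / (K * X * κ' * l ^ 2) := ⟨_, rfl⟩
      rw [← hA]
      have hA0 : 0 ≤ A := by rw [hA]; positivity
      calc 2048 * d * κ * (((Nat.log 2 U.card + 1 : ℕ) : ℝ)) ^ 2 * A * Mq
          ≤ 2048 * d * κ * (((Nat.log 2 U.card + 1 : ℕ) : ℝ)) ^ 2 * A * (K₀ * X) := by
            gcongr
        _ ≤ 2048 * d * (2 ^ d * κ') * (KL d r * l) ^ 2 * A * (K₀ * X) := by
            have : 0 ≤ K₀ * X := by positivity
            gcongr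
        _ = (2048 * d * KL d r ^ 2 * K₀ * 2 ^ d) * ((n : ℝ) ^ d / K) := by
            rw [hA]
            have : κ' ≠ 0 := by linarith
            field_simp
        _ < (K * (η ^ 2 * δ)) * ((n : ℝ) ^ d / K) := by
            refine mul_lt_mul_of_pos_right hKc2 (by positivity)
        _ = η ^ 2 * (δ * (n : ℝ) ^ d) := by field_simp
        _ ≤ η ^ 2 * U.card := by
            refine mul_le_mul_of_nonneg_left (hb.trans hUb) (by positivity)
    · have hτ' : (1 : ℝ) ≤ τ := by exact_mod_cast hτ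
      have hKc2 : 4096 * KL d r ^ 2 * K₀ * 2 ^ d ≤ K * (ζ ^ 2 * δ) := by
        refine le_trans ?_ hKc1.le
        nlinarith only [hnn, hd1]
      obtain ⟨a', ha'⟩ : ∃ a' : ℝ, a' = τ / ((n : ℝ) ^ d / (K * X * κ' * l ^ 2)) := ⟨_, rfl⟩
      have ha'0 : 0 < a' := by rw [ha']; positivity
      have hmp := many_pairs' (by omega : 0 < d) (S := opens ω m) hνω hG h3 h4 hη.le
        (fun T hT hA x hx => hcl T hT hA x hx _ fun y hy => Finset.mem_filter.1 hy) g1
        (τ := τ) (ζ := ζ) ha'0 hζ.le ?_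
      · rw [← ha']
        rw [pairs_eq hG]
        rw [h1] at hmp
        refine (mul_le_mul_of_nonneg_right hϑ (sq_nonneg _)).trans ?_
        rw [div_pow, ← mul_div_assoc]
        refine div_le_of_le_mul₀ (by positivity) (Nat.cast_nonneg _) ?_
        rw [mul_comm (Nat.cast _) ((κ : ℝ) ^ 2)]
        exact hmp
      · calc 4096 * κ * (((Nat.log 2 U.card + 1 : ℕ) : ℝ)) ^ 2 * τ *
            ∑ x ∈ opens ω m, qq (box 0 m) (ν (op ω (box 0 m))) x ^ 2
            ≤ 4096 * κ * (((Nat.log 2 U.card + 1 : ℕ) : ℝ)) ^ 2 * τ * (K₀ * X) :=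
              mul_le_mul_of_nonneg_left (hω'.trans hMX) (by positivity)
          _ ≤ 4096 * (2 ^ d * κ') * (KL d r * l) ^ 2 * τ * (K₀ * X) := by
              have : 0 ≤ K₀ * X := by positivity
              gcongr
          _ = (4096 * KL d r ^ 2 * K₀ * 2 ^ d) * (κ' * l ^ 2 * τ * X) := by ring
          _ ≤ (K * (ζ ^ 2 * δ)) * (κ' * l ^ 2 * τ * X) :=
              mul_le_mul_of_nonneg_right hKc2 (by positivity)
          _ = a' * (ζ ^ 2 * (δ * (n : ℝ) ^ d)) := by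
              rw [ha']
              field_simp
          _ ≤ a' * (ζ ^ 2 * U.card) := by
              refine mul_le_mul_of_nonneg_left ?_ ha'0.le
              exact mul_le_mul_of_nonneg_left (hb.trans hUb) (by positivity)

/-- The main estimate, in a box of radius `R n`. -/
lemma main_of {d n m R κ u : ℕ} (hd : 2 ≤ d) (hn : 1 ≤ n) (hR : 1 ≤ R) (hm : m = R * n)
    {size : Set (V d) → ℕ} (hs : Sampled d m κ u size) (hu : u ≤ (2 * (R * n) + 1) ^ d)
    {a b η ζ ϑ δ c : ℝ} (ha : 0 ≤ a) (hζ : 0 < ζ) (hζη : ζ ≤ η) (hη1 : η ≤ 1) (hϑ : ϑ ≤ η - ζ)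
    (hab : a ≤ (1 - η) * b)
    (hκb : κ ≤ (1 - η) * b) (hδ : 0 < δ) (hb : δ * (n : ℝ) ^ d ≤ b) (hc : 0 < c) (hc1 : c ≤ 1)
    (hcP : c ≤ (P d (pc d)).real {ω | ∀ x,
      (size (cluster ω (box (0 : V d) m : Finset (V d)) x) : ℝ) ≤ a})
    {κ' : ℝ} (hκ1 : 1 ≤ κ') (hκ' : κ ≤ 2 ^ d * κ') {p : unitInterval}
    (hp : (p : ℝ) ≤ (1 + pc d) / 2) {t : ℝ} (ht : 0 ≤ t) :
    (P d p).real {ω | ¬ (
      Separated ω m size a (Kc d R c ζ δ * (1 + t + (max ((p : ℝ) - pc d) 0) ^ 2 * (n : ℝ) ^ d)) ∧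
      ∀ G ⊆ opens ω m, b ≤ size G → Slow (opens ω m) G ((n : ℝ) ^ d /
        (Kc d R c ζ δ * (1 + t + (max ((p : ℝ) - pc d) 0) ^ 2 * (n : ℝ) ^ d) * κ' *
          Real.log ((n : ℝ) + 1) ^ 2)) (ϑ * (size G / κ) ^ 2))} ≤ Real.exp (-t) := by
  obtain ⟨hKp, hlc, hK0⟩ := K0_ge (R := R) hd hc hc1
  have hn' : (1 : ℝ) ≤ n := by exact_mod_cast hn
  have hR' : (1 : ℝ) ≤ R := by exact_mod_cast hR
  have hKc0 : K0 d R c ≤ Kc d R c ζ δ := by
    unfold Kc
    have : 0 ≤ 16384 * d * KL d R ^ 2 * K0 d R c * 2 ^ d / (ζ ^ 2 * δ) := by positivity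
    linarith
  have hKc1 : 16384 * d * KL d R ^ 2 * K0 d R c * 2 ^ d < Kc d R c ζ δ * (ζ ^ 2 * δ) := by
    unfold Kc
    have h1 : 0 < ζ ^ 2 * δ := by positivity
    rw [← div_lt_iff₀ h1]
    linarith
  have hX1 : 1 ≤ 1 + t + (max ((p : ℝ) - pc d) 0) ^ 2 * (n : ℝ) ^ d := by
    have : 0 ≤ (max ((p : ℝ) - pc d) 0) ^ 2 * (n : ℝ) ^ d := by positivity
    linarith
  refine main_gen hd hn hR hs hu ha hζ hζη hη1 hϑ hab hκb hδ hb hc hc1 hcP hκ1 hκ' hp (by linarith) hX1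
    ?_ hKc0 hKc1
  have h1 : (2 * (m : ℝ) + 1) ^ d ≤ (3 * R) ^ d * (n : ℝ) ^ d := by
    rw [← mul_pow, hm]
    push_cast
    refine pow_le_pow_left₀ (by positivity) ?_ d
    nlinarith
  have h2 : 0 ≤ (max ((p : ℝ) - pc d) 0) ^ 2 := sq_nonneg _
  have h3 : Kp (pc d) * (2 * (m : ℝ) + 1) ^ d * (max ((p : ℝ) - pc d) 0) ^ 2 ≤
      Kp (pc d) * (3 * R) ^ d * ((max ((p : ℝ) - pc d) 0) ^ 2 * (n : ℝ) ^ d) := by
    calc Kp (pc d) * (2 * (m : ℝ) + 1) ^ d * (max ((p : ℝ) - pc d) 0) ^ 2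
        ≤ Kp (pc d) * ((3 * R) ^ d * (n : ℝ) ^ d) * (max ((p : ℝ) - pc d) 0) ^ 2 := by gcongr
      _ = _ := by ring
  unfold K0
  obtain ⟨Y, hY⟩ : ∃ Y, Y = (max ((p : ℝ) - pc d) 0) ^ 2 * (n : ℝ) ^ d := ⟨_, rfl⟩
  have hY0 : 0 ≤ Y := by rw [hY]; positivity
  obtain ⟨Z, hZ⟩ : ∃ Z, Z = Kp (pc d) * (3 * R) ^ d := ⟨_, rfl⟩
  have hZ0 : 0 ≤ Z := by rw [hZ]; positivity
  rw [← hY, ← hZ] at h3
  rw [← hY, ← hZ]
  nlinarith [mul_nonneg hlc ht, mul_nonneg hlc hY0, mul_nonneg hZ0 ht]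

lemma sampled_ncard (d m : ℕ) : Sampled d m 1 ((2 * m + 1) ^ d) Set.ncard where
  mono C C' h h' := ncard_le_ncard h ((Finset.finite_toSet _).subset h')
  empty := ncard_empty _
  sample G hG := by
    refine ⟨G, id, (ncard_coe_finset G).symm, ?_, fun x hx => hx, fun z _ => ?_, ?_⟩
    · rw [← card_box (0 : V d) m]
      exact Finset.card_le_card hG
    · refine Finset.card_le_one.2 fun x hx y hy => ?_
      rw [Finset.mem_filter] at hx hy
      exact hx.2.trans hy.2.symm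
    · intro C hC F hF
      rw [← ncard_coe_finset F]
      exact ncard_le_ncard (fun y hy => (hF y hy).2) ((Finset.finite_toSet _).subset hC)

lemma near_finite {d : ℕ} (N k : ℕ) (C : Set (V d)) :
    {y : V d | y ∈ box 0 N ∧ ∃ z ∈ C, z ∈ box y k}.Finite :=
  (Finset.finite_toSet (box 0 N)).subset fun _ hy => hy.1

lemma sampled_near (d m N k : ℕ) :
    Sampled d m ((2 * k + 1) ^ d) ((2 * N + 1) ^ d) (near N k) where
  mono C C' h _ := by
    unfold near
    exact ncard_le_ncard (fun y ⟨h1, z, h2, h3⟩ => ⟨h1, z, h h2, h3⟩) (near_finite N k C')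
  empty := by
    unfold near
    simp
  sample G _ := by
    classical
    have hch : ∀ y : V d, ∃ z, (∃ z ∈ G, z ∈ box y k) → z ∈ G ∧ z ∈ box y k := by
      intro y
      by_cases h : ∃ z ∈ G, z ∈ box y k
      · obtain ⟨z, hz⟩ := h
        exact ⟨z, fun _ => hz⟩
      · exact ⟨y, fun h' => absurd h' h⟩
    choose π hπ using hch
    obtain ⟨U, hU⟩ : ∃ U : Finset (V d), U = (box 0 N).filter fun y => ∃ z ∈ G, z ∈ box y k :=
      ⟨_, rfl⟩
    have hmem : ∀ y, y ∈ U ↔ y ∈ box 0 N ∧ ∃ z ∈ G, z ∈ box y k := by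
      intro y
      rw [hU, Finset.mem_filter]
    refine ⟨U, π, ?_, ?_, fun x hx => (hπ x ((hmem x).1 hx).2).1, fun z _ => ?_, ?_⟩
    · unfold near
      rw [← ncard_coe_finset U]
      congr 1
      ext y
      rw [Finset.mem_coe, hmem]
      rfl
    · rw [← card_box (0 : V d) N, hU]
      exact Finset.card_le_card (Finset.filter_subset _ _)
    · rw [← card_box z k]
      refine Finset.card_le_card fun y hy => ?_
      rw [Finset.mem_filter, hmem] at hy
      have h1 := (hπ y hy.1.2).2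
      rw [hy.2, mem_box] at h1
      rw [mem_box]
      intro i
      rw [abs_sub_comm]
      exact h1 i
    · intro C _ F hF
      unfold near
      rw [← ncard_coe_finset F]
      refine ncard_le_ncard (fun y hy => ?_) (near_finite N k C)
      have h1 := (hmem y).1 (hF y hy).1
      exact ⟨h1.1, π y, (hF y hy).2, (hπ y h1.2).2⟩

lemma theta_eq (d : ℕ) (p : unitInterval) : theta d p =
    Pool.Agent.Y990.CB.th (Pool.Agent.Y990.CB.siteM d) p := MajorityBelow.theta_eq d p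

lemma infs_sub {d R n : ℕ} (hR : 1 ≤ R) (ω : V d → Bool) : infs ω n ⊆ opens ω (R * n) := by
  classical
  intro x hx
  unfold infs at hx
  rw [Finset.mem_filter] at hx
  obtain ⟨y, hy⟩ := hx.2.nonempty
  refine Finset.mem_filter.2 ⟨?_, hy.1.1⟩
  have h1 := mem_box.1 hx.1
  rw [mem_box]
  intro i
  refine (h1 i).trans ?_
  exact_mod_cast Nat.le_mul_of_pos_left n hR

/-- the number of the vertices close to infinite clusters -/
lemma near_infs {d n k : ℕ} (hn1 : 1 ≤ n) (hn : 8 * k * d ≤ n) (hkn : k ≤ n) (ω : V d → Bool)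
    (h : (near n k (infs ω n : Set (V d)) : ℝ) < (1 / 2 + 2 * (1 / 8)) * (2 * (n : ℝ) + 1) ^ d) :
    1 / 8 * (2 * (n : ℝ) + 1) ^ d ≤
      (Bn (Pool.Agent.Y990.CB.siteM d) (n - k) k ω : ℝ) := by
  classical
  have hV : 0 < (2 * (n : ℝ) + 1) ^ d := by positivity
  -- the volume of the smaller box
  have h1 : 7 / 8 * (2 * (n : ℝ) + 1) ^ d ≤ (((2 * (n - k) + 1) ^ d : ℕ) : ℝ) := by
    have e1 : (((2 * (n - k) + 1) ^ d : ℕ) : ℝ) =
        (1 + -(2 * k / (2 * (n : ℝ) + 1))) ^ d * (2 * (n : ℝ) + 1) ^ d := by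
      rw [← mul_pow]
      push_cast [Nat.cast_sub hkn]
      congr 1
      field_simp
      ring
    rw [e1]
    refine mul_le_mul_of_nonneg_right ?_ hV.le
    have h2 : (8 : ℝ) * k * d ≤ n := by exact_mod_cast hn
    have h3 : (2 * k / (2 * (n : ℝ) + 1)) ≤ 1 := by
      rw [div_le_one (by positivity)]
      have : (k : ℝ) ≤ n := by exact_mod_cast hkn
      linarith
    refine le_trans ?_ (one_add_mul_le_pow (by linarith) d)
    have h4 : (d : ℝ) * (2 * k / (2 * (n : ℝ) + 1)) ≤ 1 / 8 := by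
      rw [← mul_div_assoc, div_le_iff₀ (by positivity)]
      nlinarith
    linarith
  -- the vertices of the smaller box
  have h2 : (2 * (n - k) + 1) ^ d ≤ near n k (infs ω n : Set (V d)) +
      Bn (Pool.Agent.Y990.CB.siteM d) (n - k) k ω := by
    have e1 : (2 * (n - k) + 1) ^ d = (Pool.Agent.Y990.CB.Bf (0 : V d) (n - k)).card :=
      (Pool.Agent.Y990.CB.card_Bf _ _).symm
    rw [e1, ← Finset.card_filter_add_card_filter_not (s := Pool.Agent.Y990.CB.Bf (0 : V d) (n - k))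
      (fun y => ω ∈ Ei (Pool.Agent.Y990.CB.siteM d) k y)]
    refine Nat.add_le_add ?_ ?_
    · unfold near
      rw [← ncard_coe_finset]
      refine ncard_le_ncard (fun y hy => ?_) (near_finite n k _)
      rw [Finset.mem_coe, Finset.mem_filter, Pool.Agent.Y990.CB.mem_Bf] at hy
      obtain ⟨hy1, x, hx, hx2⟩ := hy
      have hnk : ((n - k : ℕ) : ℤ) = (n : ℤ) - k := by
        rw [Nat.cast_sub hkn]
      have g1 : ∀ i, |y i| ≤ ((n - k : ℕ) : ℤ) := fun i => by simpa using hy1 i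
      have g2 : ∀ i, |x i - y i| ≤ (k : ℤ) := fun i => hx i
      refine ⟨mem_box.2 fun i => ?_, x, ?_, mem_box.2 g2⟩
      · rw [Pi.zero_apply, sub_zero]
        have := g1 i
        omega
      · rw [Finset.mem_coe]
        unfold infs
        rw [Finset.mem_filter]
        refine ⟨mem_box.2 fun i => ?_, (MajorityBelow.infinite_iff ω x).2 hx2⟩
        rw [Pi.zero_apply, sub_zero]
        have a1 := abs_le.1 (g1 i)
        have a2 := abs_le.1 (g2 i)
        rw [abs_le]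
        constructor <;> omega
    · unfold Bn
      exact Finset.card_le_card fun y hy => by
        rw [Finset.mem_filter] at hy ⊢
        exact hy
  have h3 : (((2 * (n - k) + 1) ^ d : ℕ) : ℝ) ≤ (near n k (infs ω n : Set (V d)) : ℝ) +
      Bn (Pool.Agent.Y990.CB.siteM d) (n - k) k ω := by exact_mod_cast h2
  linarith

lemma giant_part {d : ℕ} (hd : 2 ≤ d) :
    ∀ (ε : ℝ) (R : ℕ), 0 < ε → ε ≤ 1 → 1 ≤ R → ∃ (C : ℕ) (K : ℝ) (s : ℕ → ℕ), 0 < K ∧ ∀ N : ℕ, 1 ≤ N →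
      N ≤ s N ∧ s N ≤ C * N ∧ ∀ (p : unitInterval) (t : ℝ), (p : ℝ) ≤ (1 + pc d) / 2 → 0 ≤ t →
        (P d p).real {ω | ¬ (
          Separated ω (R * s N) Set.ncard (ε ^ 2 / 4 * (2 * s N + 1) ^ d)
            (K * (1 + t + (max ((p : ℝ) - pc d) 0) ^ 2 * (s N : ℝ) ^ d)) ∧
          ∀ G ⊆ opens ω (R * s N), ε * (2 * (s N : ℝ) + 1) ^ d ≤ G.card →
            Slow (opens ω (R * s N)) G ((s N : ℝ) ^ d /
              (K * (1 + t + (max ((p : ℝ) - pc d) 0) ^ 2 * (s N : ℝ) ^ d) *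
                Real.log ((s N : ℝ) + 1) ^ 2)) ((1 - ε / 2) * (G.card : ℝ) ^ 2))} ≤
          Real.exp (-t) := by
  intro ε R hε hε1 hR
  obtain ⟨C, c, hc, h⟩ := (NoGiantCluster.result d hd (ε ^ 2 / 4) (by positivity)).1 R hR
  -- the first scale
  obtain ⟨N0, hN0⟩ := exists_nat_gt (1 / (ε ^ 2 / 4))
  have hN01 : 1 ≤ N0 := by
    rcases Nat.eq_zero_or_pos N0 with h0 | h0
    · rw [h0] at hN0
      have : 0 < 1 / (ε ^ 2 / 4) := by positivity
      push_cast at hN0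
      linarith
    · exact h0
  have key : ∀ N : ℕ, ∃ n : ℕ, 1 ≤ N → N * N0 ≤ n ∧ n ≤ C * (N * N0) ∧
      c ≤ (NoGiantCluster.P d (NoGiantCluster.pc d)).real
        {ω | (NoGiantCluster.largest d (R * n) ω : ℝ) < ε ^ 2 / 4 * (2 * n + 1) ^ d} := by
    intro N
    by_cases hN : 1 ≤ N
    · obtain ⟨n, h1⟩ := h (N * N0) (Nat.mul_pos hN hN01)
      exact ⟨n, fun _ => h1⟩
    · exact ⟨0, fun hN' => absurd hN' hN⟩
  choose s hs using key
  obtain ⟨c1, hc1⟩ : ∃ c1, c1 = min c 1 := ⟨_, rfl⟩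
  have hc10 : 0 < c1 := by rw [hc1]; exact lt_min hc one_pos
  have hc11 : c1 ≤ 1 := by rw [hc1]; exact min_le_right _ _
  refine ⟨C * N0, Kc d R c1 (ε / 4) ε, s, Kc_pos hd hc10 hc11 hε, fun N hN => ?_⟩
  obtain ⟨g1, g2, g3⟩ := hs N hN
  have hNs : N ≤ s N := (Nat.le_mul_of_pos_right N hN01).trans g1
  have hN0s : N0 ≤ s N := (Nat.le_mul_of_pos_left N0 hN).trans g1
  refine ⟨hNs, by rw [mul_assoc, mul_comm N0 N]; exact g2, fun p t hp ht => ?_⟩
  obtain ⟨n, hn⟩ : ∃ n, n = s N := ⟨_, rfl⟩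
  rw [← hn] at g3 hN0s hNs ⊢
  have hn1 : 1 ≤ n := hN.trans hNs
  have hn1r : (1 : ℝ) ≤ n := by exact_mod_cast hn1
  have hbig : 1 ≤ ε ^ 2 / 4 * (2 * (n : ℝ) + 1) ^ d := by
    have h1 : (N0 : ℝ) ≤ n := by exact_mod_cast hN0s
    have h2 : 1 / (ε ^ 2 / 4) < n := hN0.trans_le h1
    rw [div_lt_iff₀ (by positivity)] at h2
    have h3 : (n : ℝ) ≤ (2 * (n : ℝ) + 1) ^ d :=
      (by linarith : (n : ℝ) ≤ 2 * n + 1).trans (le_self_pow₀ (by linarith) (by omega))
    have h4 := mul_le_mul_of_nonneg_left h3 (by positivity : 0 ≤ ε ^ 2 / 4)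
    linarith
  have hev : c1 ≤ (P d (pc d)).real {ω | ∀ x,
      ((cluster ω (box (0 : V d) (R * n) : Finset (V d)) x).ncard : ℝ) ≤
        ε ^ 2 / 4 * (2 * n + 1) ^ d} := by
    refine (by rw [hc1]; exact min_le_left _ _ : c1 ≤ c).trans (g3.trans ?_)
    show (P d (pc d)).real _ ≤ _
    refine measureReal_mono ?_ (measure_ne_top _ _)
    intro ω hω x
    have hω' : (NoGiantCluster.largest d (R * n) ω : ℝ) < ε ^ 2 / 4 * (2 * n + 1) ^ d := hω
    have hbox : NoGiantCluster.box d (R * n) = ((box (0 : V d) (R * n) : Finset (V d)) :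
        Set (V d)) := by
      ext x
      simp only [NoGiantCluster.box, mem_ofPred_eq, Finset.mem_coe, mem_box, Pi.zero_apply,
        sub_zero]
    by_cases hx : x ∈ ((box (0 : V d) (R * n) : Finset (V d)) : Set (V d))
    · refine le_trans ?_ hω'.le
      have h4 : (cluster ω (box (0 : V d) (R * n) : Finset (V d)) x).ncard ≤
          NoGiantCluster.largest d (R * n) ω := by
        refine le_csSup ?_ ⟨x, by rw [hbox]; exact hx, by rw [hbox]; rfl⟩
        refine ⟨((box (0 : V d) (R * n) : Finset (V d)) : Set (V d)).ncard, ?_⟩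
        rintro n ⟨y, hy, rfl⟩
        rw [hbox] at hy ⊢
        exact ncard_le_ncard (cluster_subset ω _ y) (Finset.finite_toSet _)
      exact_mod_cast h4
    · have h4 : cluster ω (box (0 : V d) (R * n) : Finset (V d)) x = ∅ := by
        ext y
        simp only [cluster, mem_ofPred_eq, mem_empty_iff_false, iff_false]
        exact fun h5 => hx h5.1.2
      rw [h4, ncard_empty]
      push_cast
      positivity
  have hmain := main_of (κ' := 1) hd hn1 hR rfl (sampled_ncard d (R * n)) le_rfl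
    (a := ε ^ 2 / 4 * (2 * n + 1) ^ d) (b := ε * (2 * n + 1) ^ d) (η := 1 - ε / 4) (ζ := ε / 4)
    (ϑ := 1 - ε / 2) (δ := ε) (by positivity) (by positivity) (by linarith) (by linarith)
    (by linarith) (le_of_eq (by ring))
    (by
      refine le_trans (le_of_eq (by push_cast; rfl)) (hbig.trans (le_of_eq ?_))
      ring) hε
    (by
      have : (n : ℝ) ^ d ≤ (2 * (n : ℝ) + 1) ^ d := pow_le_pow_left₀ (by positivity)
        (by linarith) d
      exact mul_le_mul_of_nonneg_left this hε.le) hc10 hc11 hev le_rfl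
    (by push_cast; rw [mul_one]; exact one_le_pow₀ (by norm_num)) hp ht
  have e : ∀ G : Finset (V d), (1 - ε / 2) * ((G.card : ℝ) / ((1 : ℕ) : ℝ)) ^ 2 =
      (1 - ε / 2) * (G.card : ℝ) ^ 2 := by
    intro G
    push_cast
    ring
  simp only [ncard_coe_finset, mul_one, e] at hmain
  exact hmain

lemma dense_part {d : ℕ} (hd : 2 ≤ d) :
    ∃ C : ℝ, 1 ≤ C ∧ ∀ ε : ℝ, 0 < ε → ε ≤ 1 / 4 → ∃ K : ℝ, 0 < K ∧ ∀ N R k : ℕ, 1 ≤ N → 1 ≤ R →
      C * ((k : ℝ) + 1) ^ (2 * d ^ 2 + 3 * d) * R ≤ ε ^ 2 * √(N : ℝ) →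
      ∀ (p : unitInterval) (t : ℝ), (p : ℝ) ≤ (1 + pc d) / 2 → 0 ≤ t →
        (P d p).real {ω | ¬ (
          Separated ω (R * N) (near N k) ((1 / 2 + ε) * (2 * N + 1) ^ d)
            (K * (1 + t + Real.log R + (max ((p : ℝ) - pc d) 0) ^ 2 * ((R : ℝ) * N) ^ d)) ∧
          ∀ G ⊆ opens ω (R * N), (1 / 2 + 2 * ε) * (2 * (N : ℝ) + 1) ^ d ≤ near N k (G : Set (V d)) →
            Slow (opens ω (R * N)) G ((N : ℝ) ^ d /
              (K * (1 + t + Real.log R + (max ((p : ℝ) - pc d) 0) ^ 2 * ((R : ℝ) * N) ^ d) *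
                ((k : ℝ) + 1) ^ d * Real.log ((N : ℝ) + 1) ^ 2))
              (ε / 2 * (near N k (G : Set (V d)) / ((2 * k + 1) ^ d : ℕ)) ^ 2))} ≤ Real.exp (-t) := by
  obtain ⟨C, hC, h⟩ := PolynomialDisconnection.result d hd
  refine ⟨C, hC, fun ε hε hε4 => ?_⟩
  have hε1 : ε ≤ 1 := by linarith
  obtain ⟨c₀, hc₀d⟩ : ∃ c : ℝ, c = ε / 10 ^ 14 := ⟨_, rfl⟩
  have hc₀ : 0 < c₀ := by rw [hc₀d]; positivity
  have hc₀1 : c₀ ≤ 1 := by
    rw [hc₀d, div_le_one (by positivity)]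
    linarith
  have hK1 := K1_pos hd hc₀ hc₀1
  have hKd : K1 d c₀ ≤ Kd d c₀ (ε / 2) := by
    unfold Kd
    have : 0 ≤ 16384 * d * KL d 1 ^ 2 * K1 d c₀ * 2 ^ d / (ε / 2) ^ 2 := by positivity
    linarith
  refine ⟨Kd d c₀ (ε / 2), by linarith, fun N R k hN hR hk p t hp ht => ?_⟩
  have hRr : (1 : ℝ) ≤ R := by exact_mod_cast hR
  obtain ⟨c, hcd⟩ : ∃ c : ℝ, c = ε / (10 ^ 14 * R) := ⟨_, rfl⟩
  have hc : 0 < c := by rw [hcd]; positivity
  have hc1 : c ≤ 1 := by
    rw [hcd, div_le_one (by positivity)]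
    nlinarith
  have hNr : (1 : ℝ) ≤ N := by exact_mod_cast hN
  have hkN : 2 * k + 1 ≤ N := by
    have h1 : ((k : ℝ) + 1) ^ 2 ≤ ((k : ℝ) + 1) ^ (2 * d ^ 2 + 3 * d) :=
      pow_le_pow_right₀ (by linarith [Nat.cast_nonneg (α := ℝ) k]) (by nlinarith)
    have h2 : ((k : ℝ) + 1) ^ (2 * d ^ 2 + 3 * d) ≤
        C * ((k : ℝ) + 1) ^ (2 * d ^ 2 + 3 * d) * R := by
      have h3 : 0 ≤ ((k : ℝ) + 1) ^ (2 * d ^ 2 + 3 * d) := by positivity
      have h4 : 1 ≤ C * R := by nlinarith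
      nlinarith
    have h3 : ε ^ 2 * √(N : ℝ) ≤ N := by
      have h4 : √(N : ℝ) ≤ N := by
        rw [Real.sqrt_le_left (by linarith)]
        nlinarith
      have h5 : ε ^ 2 ≤ 1 := by nlinarith
      have h6 := Real.sqrt_nonneg (N : ℝ)
      nlinarith
    have h4 : ((k : ℝ) + 1) ^ 2 ≤ N := h1.trans (h2.trans (hk.trans h3))
    have h5 : 2 * (k : ℝ) + 1 ≤ N := by nlinarith [sq_nonneg (k : ℝ)]
    exact_mod_cast h5
  have hkd : (((2 * k + 1) ^ d : ℕ) : ℝ) ≤ 1 / 2 * (2 * (N : ℝ) + 1) ^ d := by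
    have h1 : 2 * (2 * k + 1) ≤ 2 * N + 1 := by omega
    have h2 : (2 * (2 * k + 1)) ^ d ≤ (2 * N + 1) ^ d := Nat.pow_le_pow_left h1 d
    rw [mul_pow] at h2
    have h3 : 2 ≤ 2 ^ d := by
      calc 2 = 2 ^ 1 := rfl
        _ ≤ 2 ^ d := Nat.pow_le_pow_right (by norm_num) (by omega)
    have h4 : 2 * (2 * k + 1) ^ d ≤ (2 * N + 1) ^ d :=
      (Nat.mul_le_mul_right _ h3).trans h2
    have h5 : ((2 * (2 * k + 1) ^ d : ℕ) : ℝ) ≤ (((2 * N + 1) ^ d : ℕ) : ℝ) := by
      exact_mod_cast h4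
    push_cast at h5 ⊢
    linarith
  have hW : 0 < (2 * (N : ℝ) + 1) ^ d := by positivity
  have hW1 : (N : ℝ) ^ d ≤ (2 * (N : ℝ) + 1) ^ d := pow_le_pow_left₀ (by positivity)
    (by linarith) d
  have hW2 : 2 * (N : ℝ) ^ d ≤ (2 * (N : ℝ) + 1) ^ d := by
    calc 2 * (N : ℝ) ^ d ≤ 2 ^ d * (N : ℝ) ^ d := by
          refine mul_le_mul_of_nonneg_right ?_ (by positivity)
          exact le_self_pow₀ (by norm_num) (by omega)
      _ = (2 * (N : ℝ)) ^ d := by rw [mul_pow]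
      _ ≤ _ := pow_le_pow_left₀ (by positivity) (by linarith) d
  have hev : c ≤ (P d (pc d)).real {ω | ∀ x,
      (near N k (cluster ω (box (0 : V d) (R * N) : Finset (V d)) x) : ℝ) ≤
        (1 / 2 + ε) * (2 * N + 1) ^ d} := by
    have h2 := (h (pc d) le_rfl).2 k N R ε hR hε hε1 hk
    rw [hcd]
    refine h2.trans ?_
    show (P d (pc d)).real _ ≤ _
    refine measureReal_mono ?_ (measure_ne_top _ _)
    intro ω hω x
    have hbox : ∀ (z : V d) (M : ℕ), PolynomialDisconnection.box z M =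
        ((box z M : Finset (V d)) : Set (V d)) := by
      intro z M
      ext x
      simp only [PolynomialDisconnection.box, mem_ofPred_eq, Finset.mem_coe, mem_box]
    have h3 := hω x
    rw [hbox, hbox] at h3
    refine le_trans (le_of_eq ?_) h3
    unfold near
    congr 2
    ext y
    simp only [mem_ofPred_eq, Finset.mem_coe, hbox]
    constructor
    · rintro ⟨e1, z, e2, e3⟩
      exact ⟨e1, z, e3, e2⟩
    · rintro ⟨e1, z, e3, e2⟩
      exact ⟨e1, z, e2, e3⟩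
  have hlogR : 0 ≤ Real.log R := Real.log_nonneg hRr
  have hX1 : 1 ≤ 1 + t + Real.log R + (max ((p : ℝ) - pc d) 0) ^ 2 * ((R : ℝ) * N) ^ d := by
    have : 0 ≤ (max ((p : ℝ) - pc d) 0) ^ 2 * ((R : ℝ) * N) ^ d := by positivity
    linarith
  refine main_gen (κ' := ((k : ℝ) + 1) ^ d) (r := 1) (δ := 1) (c := c) (K₀ := K1 d c₀)
    (a := (1 / 2 + ε) * (2 * N + 1) ^ d) (b := (1 / 2 + 2 * ε) * (2 * N + 1) ^ d) (η := ε)
    (ζ := ε / 2) (ϑ := ε / 2) hd hN le_rfl (sampled_near d (R * N) N k) (by rw [one_mul])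
    (by positivity) (by positivity) (by linarith) hε1 (by linarith)
    (by nlinarith [mul_pos hε hW])
    (hkd.trans (by nlinarith [mul_pos hε hW])) one_pos (by nlinarith [mul_pos hε hW])
    hc hc1 hev (one_le_pow₀ (by linarith [Nat.cast_nonneg (α := ℝ) k]))
    (by
      rw [← mul_pow]
      push_cast
      exact pow_le_pow_left₀ (by positivity) (by linarith) d) hp hK1 hX1 ?_ hKd ?_
  · obtain ⟨hKp, hlc, -⟩ := K0_ge (R := 1) hd hc₀ hc₀1
    have hlog : Real.log (1 / c) = Real.log R + Real.log (1 / c₀) := by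
      rw [← Real.log_mul (by positivity) (by positivity), hcd, hc₀d]
      congr 1
      field_simp
    have h1 : (2 * ((R * N : ℕ) : ℝ) + 1) ^ d ≤ 3 ^ d * ((R : ℝ) * N) ^ d := by
      rw [← mul_pow]
      push_cast
      refine pow_le_pow_left₀ (by positivity) ?_ d
      nlinarith
    have h2 : 0 ≤ (max ((p : ℝ) - pc d) 0) ^ 2 := sq_nonneg _
    have h3 : Kp (pc d) * (2 * ((R * N : ℕ) : ℝ) + 1) ^ d * (max ((p : ℝ) - pc d) 0) ^ 2 ≤
        Kp (pc d) * 3 ^ d * ((max ((p : ℝ) - pc d) 0) ^ 2 * ((R : ℝ) * N) ^ d) := by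
      calc Kp (pc d) * (2 * ((R * N : ℕ) : ℝ) + 1) ^ d * (max ((p : ℝ) - pc d) 0) ^ 2
          ≤ Kp (pc d) * (3 ^ d * ((R : ℝ) * N) ^ d) * (max ((p : ℝ) - pc d) 0) ^ 2 := by gcongr
        _ = _ := by ring
    unfold K1
    obtain ⟨Y, hY⟩ : ∃ Y, Y = (max ((p : ℝ) - pc d) 0) ^ 2 * ((R : ℝ) * N) ^ d := ⟨_, rfl⟩
    have hY0 : 0 ≤ Y := by rw [hY]; positivity
    obtain ⟨Z, hZ⟩ : ∃ Z, Z = Kp (pc d) * 3 ^ d := ⟨_, rfl⟩
    have hZ0 : 0 ≤ Z := by rw [hZ]; positivity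
    obtain ⟨q, hq⟩ : ∃ q, q = Real.log R := ⟨_, rfl⟩
    obtain ⟨w, hw⟩ : ∃ w, w = Real.log (1 / c₀) := ⟨_, rfl⟩
    rw [← hq] at hlog hlogR
    rw [← hw] at hlog hlc
    rw [← hY, ← hZ] at h3
    rw [← hY, ← hZ, hlog, ← hq, ← hw]
    have e : 4 * (3 + 2 * w + Z) * (1 + t + q + Y) = 4 * (t + 2 * (q + w) + Z * Y) +
        4 * (3 + 2 * t + q + 3 * Y + 2 * (w * t) + 2 * (w * q) + 2 * (w * Y) + Z + Z * t +
          Z * q) := by ring
    rw [e]
    have h4 : 0 ≤ 3 + 2 * t + q + 3 * Y + 2 * (w * t) + 2 * (w * q) + 2 * (w * Y) + Z + Z * t +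
        Z * q := by positivity
    linarith only [h3, h4]
  · unfold Kd
    rw [mul_one]
    have h1 : 0 < (ε / 2) ^ 2 := by positivity
    rw [← div_lt_iff₀ h1]
    linarith

lemma energy_nonneg {d : ℕ} (S : Finset (V d)) (f : V d → ℝ) : 0 ≤ energy S f := by
  unfold energy
  refine Finset.sum_nonneg fun x _ => Finset.sum_nonneg fun i _ => ?_
  split_ifs
  · exact sq_nonneg _
  · exact le_rfl

lemma Poincare.mono {d : ℕ} {S G : Finset (V d)} {A B : ℝ} (h : Poincare S G A) (hAB : A ≤ B) :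
    Poincare S G B :=
  fun f => (h f).trans (mul_le_mul_of_nonneg_right hAB (energy_nonneg S f))

lemma Slow.mono {d : ℕ} {S G : Finset (V d)} {A A' c c' : ℝ} (h : Slow S G A c) (hA' : 0 < A')
    (hA : A' ≤ A) (hc : c' ≤ c) : Slow S G A' c' := by
  classical
  refine ⟨fun h' => h.1 (h'.mono hA), fun τ hτ => hc.trans ((h.2 τ hτ).trans ?_)⟩
  refine Nat.cast_le.2 (Finset.card_le_card fun p hp => ?_)
  rw [Finset.mem_filter] at hp ⊢
  exact ⟨hp.1, hp.2.trans (div_le_div_of_nonneg_left (Nat.cast_nonneg _) hA' hA)⟩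

lemma infs_card {d : ℕ} (ω : V d → Bool) (n : ℕ) :
    ((infs ω n).card : ℝ) ≤ (2 * (n : ℝ) + 1) ^ d := by
  classical
  have h : (infs ω n).card ≤ (2 * n + 1) ^ d := by
    rw [← card_box (0 : V d) n]
    unfold infs
    exact Finset.card_le_card (Finset.filter_subset _ _)
  calc ((infs ω n).card : ℝ) ≤ (((2 * n + 1) ^ d : ℕ) : ℝ) := by exact_mod_cast h
    _ = (2 * (n : ℝ) + 1) ^ d := by push_cast; ring

lemma infinite_box {d : ℕ} (hd : 2 ≤ d) (hθ : 0 < theta d (pc d)) (δ : ℝ) (hδ : 0 < δ) :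
    ∃ (K c : ℝ) (n₀ : ℕ), 0 < K ∧ 0 < c ∧ c ≤ 1 ∧
      ∀ n R : ℕ, n₀ ≤ n → 1 ≤ R → R ≤ c * √(n : ℝ) →
      (P d (pc d)).real {ω | ¬ Slow (opens ω (R * n)) (infs ω n)
        ((n : ℝ) ^ d / (K * (1 + Real.log R) * Real.log ((n : ℝ) + 1) ^ 2))
        (c * ((infs ω n).card : ℝ) ^ 2)} ≤ δ := by
  obtain ⟨C, hC, h⟩ := dense_part hd
  obtain ⟨K, hK0, hK⟩ := h (1 / 8) (by norm_num) (by norm_num)
  rw [theta_eq] at hθ
  obtain ⟨k, hk⟩ := dense_inf (Pool.Agent.Y990.CB.siteM d) (pc d) (by omega) hθ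
    (show 0 < δ / 2 by positivity)
  obtain ⟨t, ht, hte⟩ : ∃ t : ℝ, 0 ≤ t ∧ Real.exp (-t) ≤ δ / 2 := by
    refine ⟨max (Real.log (2 / δ)) 0, le_max_right _ _, ?_⟩
    have h1 : Real.log (2 / δ) ≤ max (Real.log (2 / δ)) 0 := le_max_left _ _
    calc Real.exp (-max (Real.log (2 / δ)) 0) ≤ Real.exp (-Real.log (2 / δ)) := by
          rw [Real.exp_le_exp]
          linarith
      _ = δ / 2 := by
          rw [Real.exp_neg, Real.exp_log (by positivity), inv_div]
  obtain ⟨C', hC'⟩ : ∃ C', C' = 64 * (C * ((k : ℝ) + 1) ^ (2 * d ^ 2 + 3 * d)) := ⟨_, rfl⟩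
  have hC'0 : 0 < C' := by rw [hC']; positivity
  obtain ⟨c, hc⟩ : ∃ c : ℝ, c = min (1 / C') (1 / (32 * ((2 * (k : ℝ) + 1) ^ d) ^ 2)) := ⟨_, rfl⟩
  have hc0 : 0 < c := by rw [hc]; exact lt_min (by positivity) (by positivity)
  have hc1 : c ≤ 1 / C' := by rw [hc]; exact min_le_left _ _
  have hc2 : c ≤ 1 / (32 * ((2 * (k : ℝ) + 1) ^ d) ^ 2) := by rw [hc]; exact min_le_right _ _
  have hc3 : c ≤ 1 := by
    refine hc2.trans ?_
    rw [div_le_one (by positivity)]
    have : (1 : ℝ) ≤ ((2 * (k : ℝ) + 1) ^ d) ^ 2 :=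
      one_le_pow₀ (one_le_pow₀ (by linarith [Nat.cast_nonneg (α := ℝ) k]))
    linarith
  refine ⟨K * (1 + t) * ((k : ℝ) + 1) ^ d, c, max 1 (max (8 * k * d) k), by positivity,
    hc0, hc3, fun n R hn hR hRn => ?_⟩
  have g2 : 1 ≤ n := le_trans (le_max_left _ _) hn
  have g3 : 8 * k * d ≤ n := le_trans (le_trans (le_max_left _ _) (le_max_right _ _)) hn
  have g4 : k ≤ n := le_trans (le_trans (le_max_right _ _) (le_max_right _ _)) hn
  have hRr : (1 : ℝ) ≤ R := by exact_mod_cast hR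
  have g5 : C * ((k : ℝ) + 1) ^ (2 * d ^ 2 + 3 * d) * R ≤ (1 / 8) ^ 2 * √(n : ℝ) := by
    have hRn' : (R : ℝ) ≤ 1 / C' * √(n : ℝ) :=
      hRn.trans (mul_le_mul_of_nonneg_right hc1 (Real.sqrt_nonneg _))
    rw [one_div, inv_mul_eq_div, le_div_iff₀ hC'0, hC'] at hRn'
    linarith
  have h1 := hK n R k g2 hR g5 (pc d) t (by linarith [(pc d).2.2]) ht
  have h3 : (P d (pc d)).real {ω | 1 / 8 * (2 * (n : ℝ) + 1) ^ d ≤
      (Bn (Pool.Agent.Y990.CB.siteM d) (n - k) k ω : ℝ)} ≤ δ / 2 := hk n g4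
  have key : ∀ A B D : Set (V d → Bool), (P d (pc d)).real A ≤ δ / 2 →
      (P d (pc d)).real B ≤ δ / 2 → (∀ ω ∈ D, ω ∉ B → ω ∈ A) → (P d (pc d)).real D ≤ δ := by
    intro A B D hA hB hD
    have h4 : (P d (pc d)).real D ≤ (P d (pc d)).real (A ∪ B) := by
      refine measureReal_mono ?_ (measure_ne_top _ _)
      intro ω hω
      by_cases h5 : ω ∈ B
      · exact Or.inr h5
      · exact Or.inl (hD ω hω h5)
    have h5 := measureReal_union_le (μ := P d (pc d)) A B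
    linarith
  refine key _ _ _ (h1.trans hte) h3 ?_
  intro ω hω hB hcon
  have hnear : (1 / 2 + 2 * (1 / 8)) * (2 * (n : ℝ) + 1) ^ d ≤ near n k (infs ω n : Set (V d)) := by
    by_contra hnear
    exact hB (near_infs g2 g3 g4 ω (not_le.1 hnear))
  have hnr : (1 : ℝ) ≤ n := by exact_mod_cast g2
  have hl : 0 < Real.log ((n : ℝ) + 1) := Real.log_pos (by linarith)
  have hlR : 0 ≤ Real.log R := Real.log_nonneg hRr
  apply hω
  refine (hcon.2 (infs ω n) (infs_sub hR ω) hnear).mono (by positivity) ?_ ?_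
  · rw [sub_self, max_self]
    refine div_le_div_of_nonneg_left (by positivity) (by positivity) ?_
    have e1 : (1 : ℝ) + t + Real.log R + 0 ^ 2 * ((R : ℝ) * n) ^ d ≤
        (1 + t) * (1 + Real.log R) := by
      nlinarith [mul_nonneg ht hlR]
    calc K * (1 + t + Real.log R + 0 ^ 2 * ((R : ℝ) * n) ^ d) * ((k : ℝ) + 1) ^ d *
          Real.log ((n : ℝ) + 1) ^ 2
        ≤ K * ((1 + t) * (1 + Real.log R)) * ((k : ℝ) + 1) ^ d * Real.log ((n : ℝ) + 1) ^ 2 := by
          gcongr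
      _ = _ := by ring
  · have e1 : c * ((infs ω n).card : ℝ) ^ 2 ≤
        1 / (32 * ((2 * (k : ℝ) + 1) ^ d) ^ 2) * ((2 * (n : ℝ) + 1) ^ d) ^ 2 :=
      mul_le_mul hc2 (pow_le_pow_left₀ (Nat.cast_nonneg _) (infs_card ω n) 2) (by positivity)
        (by positivity)
    refine e1.trans ?_
    have e2 : 3 / 4 * (2 * (n : ℝ) + 1) ^ d / (2 * (k : ℝ) + 1) ^ d ≤
        near n k (infs ω n : Set (V d)) / (((2 * k + 1) ^ d : ℕ) : ℝ) := by
      push_cast
      refine div_le_div_of_nonneg_right ?_ (by positivity)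
      linarith
    have e3 := pow_le_pow_left₀ (by positivity) e2 2
    have e4 : (1 / 8 / 2 : ℝ) * (3 / 4 * (2 * (n : ℝ) + 1) ^ d / (2 * (k : ℝ) + 1) ^ d) ^ 2 ≤
        1 / 8 / 2 * (near n k (infs ω n : Set (V d)) / (((2 * k + 1) ^ d : ℕ) : ℝ)) ^ 2 :=
      mul_le_mul_of_nonneg_left e3 (by norm_num)
    refine le_trans ?_ e4
    rw [div_pow, mul_pow]
    obtain ⟨u, hu⟩ : ∃ u, u = ((2 * (n : ℝ) + 1) ^ d) ^ 2 := ⟨_, rfl⟩
    obtain ⟨v, hv⟩ : ∃ v, v = ((2 * (k : ℝ) + 1) ^ d) ^ 2 := ⟨_, rfl⟩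
    rw [← hu, ← hv]
    have hu0 : 0 ≤ u := by rw [hu]; positivity
    have hv0 : 0 < v := by rw [hv]; positivity
    have e5 : 1 / (32 * v) * u = 1 / 32 * (u / v) := by
      field_simp
    have e6 : 1 / 8 / 2 * ((3 / 4) ^ 2 * u / v) = 9 / 256 * (u / v) := by
      ring
    rw [e5, e6]
    have : 0 ≤ u / v := by positivity
    linarith

lemma norm_le_iff {d : ℕ} (x : V d) (m : ℕ) : x ∈ box (0 : V d) m ↔ ‖x‖ ≤ (m : ℝ) := by
  rw [mem_box, pi_norm_le_iff_of_nonneg (Nat.cast_nonneg _)]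
  refine forall_congr' fun i => ?_
  rw [Pi.zero_apply, sub_zero, Int.norm_eq_abs]
  constructor
  · intro h
    exact_mod_cast h
  · intro h
    exact_mod_cast h

open Classical in
/-- from a large box to the whole space -/
lemma whole_of_box {d : ℕ} (hd : 2 ≤ d) {K c : ℝ} (hK : 0 < K) (hc : 0 < c) (hc1 : c ≤ 1) :
    ∃ (K' : ℝ) (n₁ : ℕ), K ≤ K' ∧ ∀ n : ℕ, n₁ ≤ n → ∃ R : ℕ, 1 ≤ R ∧ R ≤ c * √(n : ℝ) ∧
      ∀ ω : V d → Bool, Slow (opens ω (R * n)) (infs ω n)
        ((n : ℝ) ^ d / (K * (1 + Real.log R) * Real.log ((n : ℝ) + 1) ^ 2))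
        (c * ((infs ω n).card : ℝ) ^ 2) → ∀ τ : ℕ, 1 ≤ τ →
        τ * (K' * Real.log ((n : ℝ) + 1)) ≤ (n : ℝ) ^ 3 →
        c * ((infs ω n).card : ℝ) ^ 2 ≤ (((infs ω n ×ˢ infs ω n).filter fun q =>
          overlap {x | ω x = true} τ q.1 q.2 ≤
            K' * τ * Real.log ((n : ℝ) + 1) ^ 3 / (n : ℝ) ^ d).card : ℝ) := by
  have hd0 : 0 < d := by omega
  obtain ⟨K', hK'⟩ : ∃ K' : ℝ, K' = 3 * K + 32 * 3 ^ d + 96 * d / c ^ 2 := ⟨_, rfl⟩
  have hK'1 : 3 * K + 32 * 3 ^ d ≤ K' := by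
    rw [hK']
    have : 0 ≤ 96 * d / c ^ 2 := by positivity
    linarith
  have hK'2 : 96 * d ≤ K' * c ^ 2 := by
    have h1 : 96 * d / c ^ 2 ≤ K' := by
      rw [hK']
      have : (0 : ℝ) < 3 * K + 32 * 3 ^ d := by positivity
      linarith
    rwa [div_le_iff₀ (by positivity)] at h1
  have h3d : (0 : ℝ) < 3 ^ d := by positivity
  have hK'0 : 0 < K' := by linarith
  obtain ⟨n₁, hn₁⟩ := exists_nat_ge (K' + (8 / c) ^ 2 + 1)
  refine ⟨K', n₁, by linarith, fun n hn => ?_⟩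
  have hnr : K' + (8 / c) ^ 2 + 1 ≤ n := hn₁.trans (by exact_mod_cast hn)
  have hc8 : 0 ≤ (8 / c) ^ 2 := sq_nonneg _
  have hn1 : (1 : ℝ) ≤ n := by linarith
  have hnpos : 0 < n := by exact_mod_cast (by linarith : (0 : ℝ) < n)
  obtain ⟨q, hq⟩ : ∃ q, q = √(n : ℝ) := ⟨_, rfl⟩
  have hq0 : 0 ≤ q := by rw [hq]; exact Real.sqrt_nonneg _
  have hqq : q ^ 2 = n := by rw [hq]; exact Real.sq_sqrt (by linarith)
  have hq1 : 1 ≤ q := by
    rw [hq]
    exact Real.one_le_sqrt.2 hn1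
  have hcq : 8 ≤ c * q := by
    have h1 : 8 / c ≤ q := by
      rw [hq]
      exact Real.le_sqrt_of_sq_le (by linarith)
    rw [div_le_iff₀ hc] at h1
    linarith
  have hqn : q ≤ n := by nlinarith only [hqq, hq1]
  rw [← hq]
  obtain ⟨R, hR⟩ : ∃ R, R = ⌊c * q⌋₊ := ⟨_, rfl⟩
  have hR1 : (R : ℝ) ≤ c * q := by rw [hR]; exact Nat.floor_le (by positivity)
  have hR2 : c * q - 1 ≤ R := by
    rw [hR]
    have := Nat.lt_floor_add_one (c * q)
    linarith
  have hR3 : 1 ≤ R := by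
    have : (1 : ℝ) ≤ R := by linarith
    exact_mod_cast this
  have hR3r : (1 : ℝ) ≤ R := by exact_mod_cast hR3
  have hRq : (R : ℝ) ≤ q := hR1.trans (mul_le_of_le_one_left hq0 hc1)
  refine ⟨R, hR3, hR1, fun ω hslow τ hτ1 hτ => ?_⟩
  obtain ⟨l, hl⟩ : ∃ l, l = Real.log ((n : ℝ) + 1) := ⟨_, rfl⟩
  rw [← hl] at hslow hτ ⊢
  have hl2 : 1 / 2 ≤ l := by
    have h1 := Real.log_two_gt_d9
    have h2 : Real.log 2 ≤ l := by
      rw [hl]
      exact Real.log_le_log (by norm_num) (by linarith)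
    linarith
  have hlq : l ≤ 2 * q := by
    have h1 : l = 2 * Real.log (√((n : ℝ) + 1)) := by
      rw [hl, Real.log_sqrt (by linarith)]
      ring
    have h2 := Real.log_le_sub_one_of_pos (Real.sqrt_pos.2 (by linarith : (0 : ℝ) < (n : ℝ) + 1))
    have h3 : √((n : ℝ) + 1) ≤ q + 1 := by
      rw [Real.sqrt_le_left (by linarith)]
      nlinarith
    linarith
  have hlogR : Real.log R ≤ l := by
    rw [hl]
    exact Real.log_le_log (by linarith) (by linarith)
  have hlogR0 : 0 ≤ Real.log R := Real.log_nonneg hR3r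
  have hnd : (0 : ℝ) < (n : ℝ) ^ d := by positivity
  -- the time scale
  obtain ⟨T, hT⟩ : ∃ T : ℝ, T = (n : ℝ) ^ 3 / (K' * l) := ⟨_, rfl⟩
  have hT0 : 0 < T := by rw [hT]; positivity
  have hτT : (τ : ℝ) ≤ T := by
    rw [hT, le_div_iff₀ (by positivity)]
    exact hτ
  have hm1 : (R : ℝ) * n - 1 - n ≤ 4 * T := by
    have h1 : (R : ℝ) * n ≤ q * n := mul_le_mul_of_nonneg_right hRq (by linarith)
    have h2 : q * n ≤ 4 * T := by
      rw [hT, ← mul_div_assoc, le_div_iff₀ (by positivity)]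
      have h3 : K' * l ≤ (n : ℝ) * (2 * q) :=
        mul_le_mul (by linarith) hlq (by linarith) (by linarith)
      calc q * n * (K' * l) ≤ q * n * (n * (2 * q)) :=
            mul_le_mul_of_nonneg_left h3 (by positivity)
        _ = 2 * (q ^ 2 * n ^ 2) := by ring
        _ = 2 * (n : ℝ) ^ 3 := by rw [hqq]; ring
        _ ≤ 4 * (n : ℝ) ^ 3 := by
            have : (0 : ℝ) ≤ (n : ℝ) ^ 3 := by positivity
            linarith
    linarith
  have hm2 : c / 2 * q * n ≤ (R : ℝ) * n - 1 - n := by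
    have h1 : (c * q - 1) * n ≤ (R : ℝ) * n := mul_le_mul_of_nonneg_right hR2 (by linarith)
    have h2 := mul_le_mul_of_nonneg_right hcq (by linarith : (0 : ℝ) ≤ n)
    linarith only [h1, h2, hn1]
  have hexp : Real.exp (-(((R : ℝ) * n - 1 - n) ^ 2 / (8 * T))) ≤ 1 / (n : ℝ) ^ (3 * d) := by
    have h1 : 3 * d * l ≤ ((R : ℝ) * n - 1 - n) ^ 2 / (8 * T) := by
      rw [le_div_iff₀ (by positivity)]
      have h2 : (c / 2 * q * n) ^ 2 ≤ ((R : ℝ) * n - 1 - n) ^ 2 :=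
        pow_le_pow_left₀ (by positivity) hm2 2
      refine le_trans ?_ h2
      have h3 : (c / 2 * q * n) ^ 2 = c ^ 2 / 4 * (n : ℝ) ^ 3 := by
        calc (c / 2 * q * n) ^ 2 = c ^ 2 / 4 * (q ^ 2 * n ^ 2) := by ring
          _ = _ := by rw [hqq]; ring
      rw [h3, hT]
      have h4 : 3 * d * l * (8 * ((n : ℝ) ^ 3 / (K' * l))) = 24 * d * (n : ℝ) ^ 3 / K' := by
        field_simp
        ring
      rw [h4, div_le_iff₀ hK'0]
      have h5 := mul_le_mul_of_nonneg_right hK'2 (by positivity : (0 : ℝ) ≤ (n : ℝ) ^ 3)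
      linarith
    calc Real.exp (-(((R : ℝ) * n - 1 - n) ^ 2 / (8 * T))) ≤ Real.exp (-(3 * d * l)) :=
          Real.exp_le_exp.2 (by linarith)
      _ = (Real.exp l ^ (3 * d))⁻¹ := by
          rw [Real.exp_neg, ← Real.exp_nat_mul]
          congr 2
          push_cast
          ring
      _ ≤ ((n : ℝ) ^ (3 * d))⁻¹ := by
          have h6 : (n : ℝ) ≤ Real.exp l := by
            rw [hl, Real.exp_log (by linarith)]
            linarith
          exact inv_anti₀ (by positivity) (pow_le_pow_left₀ (by linarith) h6 _)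
      _ = _ := by rw [one_div]
  have hcardB : ((opens ω (R * n)).card : ℝ) ≤ 3 ^ d * (n : ℝ) ^ (2 * d) := by
    have h1 : ((opens ω (R * n)).card : ℝ) ≤ (((2 * (R * n) + 1) ^ d : ℕ) : ℝ) := by
      rw [← card_box (0 : V d) (R * n)]
      exact_mod_cast Finset.card_le_card (Finset.filter_subset _ _)
    refine h1.trans ?_
    push_cast
    rw [pow_mul, ← mul_pow]
    refine pow_le_pow_left₀ (by positivity) ?_ d
    have h2 : (R : ℝ) * n ≤ n * n := mul_le_mul_of_nonneg_right (hRq.trans hqn) (by linarith)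
    have h3 : (1 : ℝ) ≤ (n : ℝ) * n := one_le_mul_of_one_le_of_one_le hn1 hn1
    rw [sq]
    linarith only [h2, h3]
  have hB : ∀ x, x ∈ opens ω (R * n) ↔ x ∈ {x : V d | ω x = true} ∧ ‖x‖ ≤ (R : ℝ) * n := by
    intro x
    unfold opens
    rw [Finset.mem_filter, norm_le_iff, and_comm]
    push_cast
    rfl
  refine (hslow.2 τ hτ1).trans (Nat.cast_le.2 (Finset.card_le_card fun p hp => ?_))
  rw [Finset.mem_filter] at hp ⊢
  refine ⟨hp.1, ?_⟩
  obtain ⟨hp1, hp2⟩ := Finset.mem_product.1 hp.1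
  have hI : ∀ x ∈ infs ω n, x ∈ opens ω (R * n) ∧ ‖x‖ ≤ (n : ℝ) := by
    intro x hx
    refine ⟨infs_sub hR3 ω hx, (norm_le_iff x n).1 ?_⟩
    unfold infs at hx
    exact (Finset.mem_filter.1 hx).1
  have hov := hp.2
  rw [overlap_eq _ τ (hI _ hp1).1] at hov
  rw [overlap_eqs]
  have hmn : (n : ℝ) + 1 ≤ (R : ℝ) * n := by
    have : 0 ≤ c / 2 * q * n := by positivity
    linarith
  have hmain := overlaps_le_box hd0 hB hmn hT0 hm1 hτT (hI _ hp1).1 (hI _ hp1).2
    (hI _ hp2).1 (hI _ hp2).2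
  refine hmain.trans ?_
  have hτ0 : (0 : ℝ) ≤ τ := Nat.cast_nonneg _
  have h1 : Pool.Agent.H246.SM.overlap (opens ω (R * n)) τ p.1 p.2 ≤
      3 * K * τ * l ^ 3 / (n : ℝ) ^ d := by
    refine hov.trans ?_
    have e1 : (τ : ℝ) / ((n : ℝ) ^ d / (K * (1 + Real.log R) * l ^ 2)) =
        τ * (K * (1 + Real.log R) * l ^ 2) / (n : ℝ) ^ d := by
      rw [div_div_eq_mul_div]
    rw [e1]
    refine div_le_div_of_nonneg_right ?_ hnd.le
    have e2 : 1 + Real.log R ≤ 3 * l := by linarith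
    calc (τ : ℝ) * (K * (1 + Real.log R) * l ^ 2) ≤ τ * (K * (3 * l) * l ^ 2) := by gcongr
      _ = _ := by ring
  have h2 : 4 * (τ * ((opens ω (R * n)).card *
      Real.exp (-(((R : ℝ) * n - 1 - n) ^ 2 / (8 * T))))) ≤
      32 * 3 ^ d * τ * l ^ 3 / (n : ℝ) ^ d := by
    have e1 : ((opens ω (R * n)).card : ℝ) *
        Real.exp (-(((R : ℝ) * n - 1 - n) ^ 2 / (8 * T))) ≤ 3 ^ d / (n : ℝ) ^ d := by
      refine (mul_le_mul hcardB hexp (Real.exp_nonneg _) (by positivity)).trans (le_of_eq ?_)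
      have : (3 * d) = 2 * d + d := by ring
      rw [this, pow_add]
      field_simp
    have e2 : 1 / 8 ≤ l ^ 3 := by
      calc (1 / 8 : ℝ) = (1 / 2) ^ 3 := by norm_num
        _ ≤ l ^ 3 := pow_le_pow_left₀ (by norm_num) hl2 3
    calc 4 * (τ * ((opens ω (R * n)).card *
        Real.exp (-(((R : ℝ) * n - 1 - n) ^ 2 / (8 * T))))) ≤
        4 * (τ * (3 ^ d / (n : ℝ) ^ d)) := by gcongr
      _ = 4 * 3 ^ d * τ * 1 / (n : ℝ) ^ d := by ring
      _ ≤ 4 * 3 ^ d * τ * (8 * l ^ 3) / (n : ℝ) ^ d := by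
          refine div_le_div_of_nonneg_right ?_ hnd.le
          exact mul_le_mul_of_nonneg_left (by linarith) (by positivity)
      _ = _ := by ring
  calc Pool.Agent.H246.SM.overlap (opens ω (R * n)) τ p.1 p.2 +
      4 * (τ * ((opens ω (R * n)).card *
        Real.exp (-(((R : ℝ) * n - 1 - n) ^ 2 / (8 * T)))))
      ≤ 3 * K * τ * l ^ 3 / (n : ℝ) ^ d + 32 * 3 ^ d * τ * l ^ 3 / (n : ℝ) ^ d :=
        add_le_add h1 h2
    _ = (3 * K + 32 * 3 ^ d) * τ * l ^ 3 / (n : ℝ) ^ d := by ring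
    _ ≤ K' * τ * l ^ 3 / (n : ℝ) ^ d := by
        refine div_le_div_of_nonneg_right ?_ hnd.le
        gcongr

open Classical in
lemma infinite_part {d : ℕ} (hd : 2 ≤ d) (hθ : 0 < theta d (pc d)) (δ : ℝ) (hδ : 0 < δ) :
    ∃ (K c : ℝ) (n₀ : ℕ), 0 < K ∧ 0 < c ∧
      (∀ n R : ℕ, n₀ ≤ n → 1 ≤ R → R ≤ c * √(n : ℝ) →
        (P d (pc d)).real {ω | ¬ Slow (opens ω (R * n)) (infs ω n)
          ((n : ℝ) ^ d / (K * (1 + Real.log R) * Real.log ((n : ℝ) + 1) ^ 2))
          (c * ((infs ω n).card : ℝ) ^ 2)} ≤ δ) ∧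
      ∀ n : ℕ, n₀ ≤ n → (P d (pc d)).real {ω | ¬ ∀ τ : ℕ, 1 ≤ τ →
        τ * (K * Real.log ((n : ℝ) + 1)) ≤ (n : ℝ) ^ 3 →
        c * ((infs ω n).card : ℝ) ^ 2 ≤ (((infs ω n ×ˢ infs ω n).filter fun q =>
          overlap {x | ω x = true} τ q.1 q.2 ≤
            K * τ * Real.log ((n : ℝ) + 1) ^ 3 / (n : ℝ) ^ d).card : ℝ)} ≤ δ := by
  obtain ⟨K, c, n₀, hK, hc, hc1, h⟩ := infinite_box hd hθ δ hδ
  obtain ⟨K', n₁, hK', h'⟩ := whole_of_box hd hK hc hc1
  refine ⟨K', c, max (max n₀ n₁) 1, hK.trans_le hK', hc, fun n R hn hR hRn => ?_,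
    fun n hn => ?_⟩
  · have hn0 : n₀ ≤ n := le_trans (le_trans (le_max_left _ _) (le_max_left _ _)) hn
    have hn1 : 1 ≤ n := le_trans (le_max_right _ _) hn
    have hnr : (1 : ℝ) ≤ n := by exact_mod_cast hn1
    have hRr : (1 : ℝ) ≤ R := by exact_mod_cast hR
    have hl : 0 < Real.log ((n : ℝ) + 1) := Real.log_pos (by linarith)
    have hlR : 0 ≤ Real.log R := Real.log_nonneg hRr
    have hK'0 : 0 < K' := hK.trans_le hK'
    refine (measureReal_mono ?_ (measure_ne_top _ _)).trans (h n R hn0 hR hRn)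
    intro ω hω hslow
    refine hω (hslow.mono (by positivity) ?_ le_rfl)
    refine div_le_div_of_nonneg_left (by positivity) (by positivity) ?_
    gcongr
  · have hn0 : n₀ ≤ n := le_trans (le_trans (le_max_left _ _) (le_max_left _ _)) hn
    have hn1 : n₁ ≤ n := le_trans (le_trans (le_max_right _ _) (le_max_left _ _)) hn
    obtain ⟨R, hR1, hR2, h2⟩ := h' n hn1
    refine (measureReal_mono ?_ (measure_ne_top _ _)).trans (h n R hn0 hR1 hR2)
    intro ω hω hslow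
    exact hω (h2 ω hslow)

open Classical in
/-- **Giant critical clusters mix slowly.**  For every `d ≥ 2`:

* for all `ε ∈ (0, 1]` and `R ≥ 1` there are `C` and `K > 0` such that for every `N ≥ 1` there is a
  scale `n = s N` with `N ≤ n ≤ C N` such that for all `p ≤ (1 + p_c) / 2` and `t ≥ 0`, outside an
  event of `P_p`-probability at most `exp (-t)`, with `M = K (1 + t + (p - p_c)_+ ^ 2 n ^ d)`:
  there is a random set `T` of open vertices of the box of radius `R n`, with `∑_x P (x ∈ T)^2 ≤ M`,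
  such that after closing `T` all open clusters of the box have at most `(ε ^ 2 / 4) (2 n + 1)^d`
  vertices; and every set `G` of at least `ε (2 n + 1)^d` open vertices of the box mixes slowly in
  the open part of the box, on the time scale `A = n ^ d / (M (log (n + 1))^2)`: the Poincare
  inequality with the constant `A` fails, and for every time `τ`, for all but an `ε / 2`-fraction of
  the pairs of vertices of `G`, the laws of the two ants in the labyrinth started at these vertices have an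
  overlap at most `τ / A` at the time `τ`;
* there is a `C`, and for `ε ∈ (0, 1/4]` a `K > 0`, such that the same is true at all scales
  `n = N`, for all `R` and `k` which are at most a power of `N`
  (`C (k + 1) ^ (2 d^2 + 3 d) R ≤ ε^2 √N`), for the sets which come within distance `k` of more
  than half of the box of radius `N`, with `M = K (1 + t + log R + (p - p_c)_+ ^ 2 (R N) ^ d)` and
  the time scale `N ^ d / (M (k + 1) ^ d (log (N + 1))^2)`;
* if `θ(p_c) > 0`, then for all `δ > 0` there are `K > 0`, `c > 0` and `n₀` such that for all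
  `n ≥ n₀`, for the set `I` of the vertices of the box of radius `n` in infinite clusters:
  - for `1 ≤ R ≤ c √n`, with `P_{p_c}`-probability at least `1 - δ` the set `I` mixes slowly in the
    open part of the box of radius `R n`, on the time scale
    `n ^ d / (K (1 + log R) (log (n + 1))^2)`;
  - with `P_{p_c}`-probability at least `1 - δ`, for every time `τ ≤ n ^ 3 / (K log (n + 1))` there
    are at least `c |I| ^ 2` pairs of vertices of `I` for which the laws at the time `τ` of the two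
    ants in the infinite open labyrinth have an overlap at most
    `K τ (log (n + 1)) ^ 3 / n ^ d`. -/
theorem result (d : ℕ) (hd : 2 ≤ d) :
    (∀ (ε : ℝ) (R : ℕ), 0 < ε → ε ≤ 1 → 1 ≤ R →
      ∃ (C : ℕ) (K : ℝ) (s : ℕ → ℕ), 0 < K ∧ ∀ N : ℕ, 1 ≤ N →
      N ≤ s N ∧ s N ≤ C * N ∧ ∀ (p : unitInterval) (t : ℝ), (p : ℝ) ≤ (1 + pc d) / 2 → 0 ≤ t →
        (P d p).real {ω | ¬ (
          Separated ω (R * s N) Set.ncard (ε ^ 2 / 4 * (2 * s N + 1) ^ d)
            (K * (1 + t + (max ((p : ℝ) - pc d) 0) ^ 2 * (s N : ℝ) ^ d)) ∧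
          ∀ G ⊆ opens ω (R * s N), ε * (2 * (s N : ℝ) + 1) ^ d ≤ G.card →
            Slow (opens ω (R * s N)) G ((s N : ℝ) ^ d /
              (K * (1 + t + (max ((p : ℝ) - pc d) 0) ^ 2 * (s N : ℝ) ^ d) *
                Real.log ((s N : ℝ) + 1) ^ 2)) ((1 - ε / 2) * (G.card : ℝ) ^ 2))} ≤
          Real.exp (-t)) ∧
    (∃ C : ℝ, 1 ≤ C ∧ ∀ ε : ℝ, 0 < ε → ε ≤ 1 / 4 → ∃ K : ℝ, 0 < K ∧
      ∀ N R k : ℕ, 1 ≤ N → 1 ≤ R →
      C * ((k : ℝ) + 1) ^ (2 * d ^ 2 + 3 * d) * R ≤ ε ^ 2 * √(N : ℝ) →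
      ∀ (p : unitInterval) (t : ℝ), (p : ℝ) ≤ (1 + pc d) / 2 → 0 ≤ t →
        (P d p).real {ω | ¬ (
          Separated ω (R * N) (near N k) ((1 / 2 + ε) * (2 * N + 1) ^ d)
            (K * (1 + t + Real.log R + (max ((p : ℝ) - pc d) 0) ^ 2 * ((R : ℝ) * N) ^ d)) ∧
          ∀ G ⊆ opens ω (R * N), (1 / 2 + 2 * ε) * (2 * (N : ℝ) + 1) ^ d ≤ near N k (G : Set (V d)) →
            Slow (opens ω (R * N)) G ((N : ℝ) ^ d /
              (K * (1 + t + Real.log R + (max ((p : ℝ) - pc d) 0) ^ 2 * ((R : ℝ) * N) ^ d) *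
                ((k : ℝ) + 1) ^ d * Real.log ((N : ℝ) + 1) ^ 2))
              (ε / 2 * (near N k (G : Set (V d)) / ((2 * k + 1) ^ d : ℕ)) ^ 2))} ≤
          Real.exp (-t)) ∧
    (0 < theta d (pc d) → ∀ δ : ℝ, 0 < δ → ∃ (K c : ℝ) (n₀ : ℕ), 0 < K ∧ 0 < c ∧
      (∀ n R : ℕ, n₀ ≤ n → 1 ≤ R → R ≤ c * √(n : ℝ) →
        (P d (pc d)).real {ω | ¬ Slow (opens ω (R * n)) (infs ω n)
          ((n : ℝ) ^ d / (K * (1 + Real.log R) * Real.log ((n : ℝ) + 1) ^ 2))
          (c * ((infs ω n).card : ℝ) ^ 2)} ≤ δ) ∧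
      ∀ n : ℕ, n₀ ≤ n → (P d (pc d)).real {ω | ¬ ∀ τ : ℕ, 1 ≤ τ →
        τ * (K * Real.log ((n : ℝ) + 1)) ≤ (n : ℝ) ^ 3 →
        c * ((infs ω n).card : ℝ) ^ 2 ≤ (((infs ω n ×ˢ infs ω n).filter fun q =>
          overlap {x | ω x = true} τ q.1 q.2 ≤
            K * τ * Real.log ((n : ℝ) + 1) ^ 3 / (n : ℝ) ^ d).card : ℝ)} ≤ δ) :=
  ⟨giant_part hd, dense_part hd, fun hθ δ hδ => infinite_part hd hθ δ hδ⟩

end

end Pool.Agent.Results.MP_e13933_pr.SlowMixing
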