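import Pool.Agent.H979.PC.PC4

set_option autoImplicit false

open MeasureTheory Set Filter
open scoped Topology

/-!
Site percolation on `Z^d`, `d ≥ 3`, at and near the critical point: the random walk on the open
clusters is subdiffusive at the critical point, with a logarithmic rate, and its diffusivity is
small near the critical point.  Consequently the return probabilities in an infinite cluster at the
critical point would be larger than diffusive ones at all times.

The proof is in the modules `Pool.Agent.H979.PC.*`; it uses the half-space theorem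
`Pool.Graph.R_pool_sql_team_seeded_3dad9d7b.Results.MP_e13933_pr.HalfSpace` of the library.
-/

namespace Pool.Agent.Results.MP_e13933_pr.SubdiffusiveWalk

noncomputable section

/-- Vertices of `Z^d`. -/
abbrev V (d : ℕ) : Type := Fin d → ℤ

/-- The open subgraph inside the region `S`: two vertices at Euclidean distance one are joined if
both are open (`ω x = true`) and in `S`. -/
def openGraph {d : ℕ} (ω : V d → Bool) (S : Set (V d)) : SimpleGraph (V d) where
  Adj x y := ∑ i, |x i - y i| = 1 ∧ (x ∈ S ∧ ω x = true) ∧ (y ∈ S ∧ ω y = true)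
  symm := ⟨fun x y ⟨h1, h2, h3⟩ => ⟨by simpa only [abs_sub_comm] using h1, h3, h2⟩⟩
  loopless := ⟨fun x h => by simpa using h.1⟩

/-- The open cluster of `x` inside the region `S` (empty if `x` is closed). -/
def cluster {d : ℕ} (ω : V d → Bool) (S : Set (V d)) (x : V d) : Set (V d) :=
  {y | (ω x = true ∧ x ∈ S) ∧ (openGraph ω S).Reachable x y}

/-- Site percolation with parameter `p`: all vertices are open with probability `p`,
independently. -/
def P (d : ℕ) (p : unitInterval) : Measure (V d → Bool) :=
  Measure.infinitePi (fun _ : V d =>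
    ENNReal.ofReal (p : ℝ) • Measure.dirac true + ENNReal.ofReal (1 - (p : ℝ)) • Measure.dirac false)

/-- The percolation probability `θ_d(p)`. -/
def theta (d : ℕ) (p : unitInterval) : ℝ := (P d p).real {ω | (cluster ω univ 0).Infinite}

/-- The critical point `p_c(d)`, the supremum of the parameters with `θ_d(p) = 0`. -/
def pc (d : ℕ) : unitInterval :=
  ⟨sSup {t : ℝ | ∃ q : unitInterval, (q : ℝ) = t ∧ theta d q = 0}, by
    constructor
    · apply Real.sSup_nonneg
      rintro x ⟨q, rfl, _⟩
      exact q.2.1
    · apply Real.sSup_le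
      · rintro x ⟨q, rfl, _⟩
        exact q.2.2
      · exact zero_le_one⟩

/-- The unit vector `± e_i`, for `s = (i, ±)`. -/
def unit {d : ℕ} (s : Fin d × Bool) : V d := Pi.single s.1 (if s.2 then 1 else -1)

/-- The `n`-step transition probabilities of the random walk on the open clusters: at each step one
of the `2 d` neighbours is chosen uniformly at random, and the walk moves there if its present
position and the chosen neighbour are both open; otherwise it does not move. -/
def heat {d : ℕ} (ω : V d → Bool) : ℕ → V d → V d → ℝ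
  | 0, x, y => if x = y then 1 else 0
  | n + 1, x, y => (∑ s : Fin d × Bool, if ω x = true ∧ ω (x + unit s) = true then
      heat ω n (x + unit s) y else heat ω n x y) / (2 * d)

/-- The mean square displacement of the walk after `n` steps from `x`, in the environment `ω`. -/
def msd {d : ℕ} (ω : V d → Bool) (n : ℕ) (x : V d) : ℝ :=
  ∑' y : V d, heat ω n x y * ∑ i, ((y i - x i : ℤ) : ℝ) ^ 2

lemma P_eq (d : ℕ) (p : unitInterval) : P d p = Pool.Agent.H979.PC.mu d p := rfl

lemma pc_eq (d : ℕ) : pc d = Pool.Agent.Results.MP_e13933_pr.HalfSpace.pc d := rfl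

lemma heat_eq {d : ℕ} (ω : V d → Bool) (n : ℕ) : ∀ x y : V d,
    heat ω n x y = Pool.Agent.H979.PC.heat ω n x y := by
  induction n with
  | zero => exact fun x y => rfl
  | succ n ih =>
    intro x y
    show (∑ s : Fin d × Bool, if ω x = true ∧ ω (x + unit s) = true then
      heat ω n (x + unit s) y else heat ω n x y) / (2 * d) = _
    simp only [ih]
    rfl

lemma msd_eq {d : ℕ} (hd : 0 < d) (ω : V d → Bool) (n : ℕ) (x : V d) :
    msd ω n x = Pool.Agent.H979.PC.A ω n (fun y => Pool.Agent.H979.PC.sq2 (y - x)) x := by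
  unfold msd
  simp only [heat_eq]
  rw [Pool.Agent.H979.PC.A_eq_tsum hd]
  rfl

lemma msd_eq_zero {d : ℕ} (hd : 0 < d) (ω : V d → Bool) (n : ℕ) :
    msd ω n 0 = Pool.Agent.H979.PC.A ω n Pool.Agent.H979.PC.sq2 0 := by
  rw [msd_eq hd]
  simp only [sub_zero]

/-- **Subdiffusivity at the critical point.**  For every `d ≥ 3` there are `c, C, k > 0` such that
for all `p` and all `2 ≤ L ≤ n` with `p ≤ p_c + 1 / L` (in particular for `p = p_c` and `L = n`, and
for `p > p_c`, `L = 1 / (p - p_c) ≤ n`):

* the mean square displacement of the walk on the clusters after `n` steps from the origin,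
  averaged over the environment, is at most `C n / (log L)^c`;
* for every event `S`, the return probability satisfies
  `E_p[P^{2n}(0, 0); S] ≥ k P_p(S) (P_p(S) (log L)^c / n)^{d/2}` (take for `S` the event that `0`
  is in an infinite cluster).

Moreover, for every `c' < c`, `P_{p_c}`-almost surely, for every vertex `x` and every `ε > 0` there
are infinitely many `n` for which the mean square displacement of the walk after `n` steps from `x`
is at most `ε n / (log n)^{c'}`. -/
theorem result (d : ℕ) (hd : 3 ≤ d) : ∃ c C k : ℝ, 0 < c ∧ 0 < C ∧ 0 < k ∧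
    (∀ (p : unitInterval) (L : ℝ) (n : ℕ), 2 ≤ L → L ≤ n → (p : ℝ) ≤ pc d + 1 / L →
      ∫ ω, msd ω n 0 ∂(P d p) ≤ C * n / Real.log L ^ c) ∧
    (∀ (p : unitInterval) (L : ℝ) (n : ℕ), 2 ≤ L → L ≤ n → (p : ℝ) ≤ pc d + 1 / L →
      ∀ S : Set (V d → Bool), MeasurableSet S →
        k * (P d p).real S * √((P d p).real S * Real.log L ^ c / n) ^ d ≤
          ∫ ω in S, heat ω (2 * n) 0 0 ∂(P d p)) ∧
    (∀ c' < c, ∀ᵐ ω ∂(P d (pc d)), ∀ x : V d, ∀ ε > 0, ∃ᶠ n : ℕ in atTop,
      msd ω n x ≤ ε * n / Real.log n ^ c') := by
  obtain ⟨c, C, hc, hC, h⟩ := Pool.Agent.H979.PC.msd2 hd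
  have hd0 : 0 < d := by omega
  obtain ⟨k, hk, hret⟩ := Pool.Agent.H979.PC.ret hd0 hc hC h
  refine ⟨c, C, k, hc, hC, hk, ?_, ?_, ?_⟩
  · intro p L n hL hLn hp
    simp only [msd_eq_zero hd0]
    rw [P_eq]
    refine (h p L n hL hLn hp).trans (le_of_eq ?_)
    have hl : 0 < Real.log L := Real.log_pos (by linarith)
    rw [one_div, Real.inv_rpow hl.le]
    rfl
  · intro p L n hL hLn hp S hS
    simp only [heat_eq]
    rw [P_eq]
    exact hret p L n hL hLn hp S hS
  · intro c' hc'
    have h1 := Pool.Agent.H979.PC.as_sub hd0 h hc' (pc d) (le_of_eq (pc_eq d))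
    rw [P_eq]
    filter_upwards [h1] with ω hω x ε hε
    refine (hω x ε hε).mono fun n hn => ?_
    rw [msd_eq hd0]
    exact hn

end

end Pool.Agent.Results.MP_e13933_pr.SubdiffusiveWalk
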