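import Pool.Agent.H629.PT.PT4
import Pool.Agent.H629.PT.PT6

set_option autoImplicit false

open MeasureTheory Set Filter
open scoped Topology

/-!
Site percolation on `Z^d`, `d ≥ 3`, at and near the critical point: maximal flows (sizes of cut
sets), effective conductances and the isoperimetry of infinite clusters, with logarithmic rates.

The proof is in the modules `Pool.Agent.H629.PT.*`; it uses the half-space theorem
`Pool.Graph.R_pool_sql_team_seeded_3dad9d7b.Results.MP_e13933_pr.HalfSpace` of the library.
-/

namespace Pool.Agent.Results.MP_e13933_pr.VanishingTransport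

noncomputable section

/-- Vertices of `Z^d`. -/
abbrev V (d : ℕ) : Type := Fin d → ℤ

/-- The open subgraph inside the region `S`: two vertices at Euclidean distance one are joined if
both are open (`ω x = true`) and in `S`. -/
def openGraph {d : ℕ} (ω : V d → Bool) (S : Set (V d)) : SimpleGraph (V d) where
  Adj x y := ∑ i, |x i - y i| = 1 ∧ (x ∈ S ∧ ω x = true) ∧ (y ∈ S ∧ ω y = true)
  symm := ⟨fun x y ⟨h1, h2, h3⟩ => ⟨by simpa only [abs_sub_comm] using h1, h3, h2⟩⟩
  loopless := ⟨fun x h => by simpa using h.1⟩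

/-- The open cluster of `x` inside the region `S` (empty if `x` is closed). -/
def cluster {d : ℕ} (ω : V d → Bool) (S : Set (V d)) (x : V d) : Set (V d) :=
  {y | (ω x = true ∧ x ∈ S) ∧ (openGraph ω S).Reachable x y}

/-- The sets `A` and `B` are connected inside the region `S`: some open cluster inside `S` meets
both of them. -/
def Joined {d : ℕ} (ω : V d → Bool) (S A B : Set (V d)) : Prop :=
  ∃ x ∈ A, (cluster ω S x ∩ B).Nonempty

/-- Site percolation with densities `r x`: the vertex `x` is open with probability `r x`,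
independently of all others. -/
def P {d : ℕ} (r : V d → unitInterval) : Measure (V d → Bool) :=
  Measure.infinitePi (fun x : V d =>
    ENNReal.ofReal (r x : ℝ) • Measure.dirac true +
      ENNReal.ofReal (1 - (r x : ℝ)) • Measure.dirac false)

/-- The percolation probability `θ_d(p)` (all densities equal to `p`). -/
def theta (d : ℕ) (p : unitInterval) : ℝ :=
  (P fun _ : V d => p).real {ω | (cluster ω univ 0).Infinite}

/-- The critical point `p_c(d)`, the supremum of the parameters with `θ_d(p) = 0`. -/
def pc (d : ℕ) : unitInterval :=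
  ⟨sSup {t : ℝ | ∃ q : unitInterval, (q : ℝ) = t ∧ theta d q = 0}, by
    constructor
    · apply Real.sSup_nonneg
      rintro x ⟨q, rfl, _⟩
      exact q.2.1
    · apply Real.sSup_le
      · rintro x ⟨q, rfl, _⟩
        exact q.2.2
      · exact zero_le_one⟩

/-- The vertices at sup-distance at least `n` from the box `[a, b]`. -/
def far {d : ℕ} (a b : V d) (n : ℕ) : Set (V d) := {x | ∃ i, b i + n ≤ x i ∨ x i ≤ a i - n}

/-- The surface of the box `[a, b]` enlarged by `n` in all directions (the sum of the sizes of its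
`2 d` faces). -/
def surf {d : ℕ} (a b : V d) (n : ℕ) : ℝ :=
  ∑ v, 2 * ∏ i ∈ Finset.univ.erase v, ((b i : ℝ) - a i + 1 + 2 * n)

open Classical in
/-- The Dirichlet energy of `f` on the open subgraph of the finite region `S` (unit conductances;
every edge is counted once). -/
def energy {d : ℕ} (ω : V d → Bool) (S : Finset (V d)) (f : V d → ℝ) : ℝ :=
  ∑ x ∈ S, ∑ i : Fin d, if (openGraph ω (S : Set (V d))).Adj x (x + Pi.single i 1) then
    (f (x + Pi.single i 1) - f x) ^ 2 else 0

/-- The effective conductance, inside the open subgraph of `S`, between `{x_v ≤ t}` and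
`{x_v ≥ t + n}`: the minimal energy of a function which is `0` on the first and `1` on the second
set. -/
def cond {d : ℕ} (ω : V d → Bool) (S : Finset (V d)) (v : Fin d) (t : ℤ) (n : ℕ) : ℝ :=
  ⨅ f : {f : V d → ℝ // (∀ x, x v ≤ t → f x = 0) ∧ (∀ x, t + n ≤ x v → f x = 1)}, energy ω S f

/-- `F` is a finite set of vertices in infinite clusters, and `X` contains its outer boundary in
the open graph: all open vertices outside `F` which have a neighbour in `F`. -/
def Bounds {d : ℕ} (ω : V d → Bool) (F X : Finset (V d)) : Prop :=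
  (∀ x ∈ F, (cluster ω univ x).Infinite) ∧
    ∀ x ∈ F, ∀ y ∉ F, (openGraph ω univ).Adj x y → y ∈ X

/-- **Transport at the critical point.**  For every `d ≥ 3` there are `c, C > 0` such that for all
`n, L ≥ 2`, with `M = min(n, L)`, and all densities `r x ≤ p_c + 1 / L`:

* for every region `S` and every coordinate `v` the probability that `{x_v ≤ t}` and
  `{x_v ≥ t + n}` cannot be separated inside the open subgraph of `S` by removing `k` vertices is at
  most `C |{x ∈ S, x_v = t}| / ((k + 1) (log M)^c)`;
* for every box `[a, b]` the probability that the box and the vertices at distance at least `n` from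
  it cannot be separated in the open graph by removing `k` vertices is at most
  `C surf / ((k + 1) (log M)^c)`, where `surf` is the surface of the box enlarged by `n`;
* for every finite region `S` the expectation of the effective conductance between `{x_v ≤ t}` and
  `{x_v ≥ t + n}` inside the open subgraph of `S` is at most
  `C |{x ∈ S, t < x_v < t + n}| / (n^2 (log M)^c)`.

Moreover, if `p ≤ p_c + 1 / L` and `0 < ε ≤ θ_d(p) n`, then with `P_p`-probability at least
`θ_d(p) / 2 - C / (ε (log M)^c)` the box of radius `2 n` contains a set of at least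
`(θ_d(p) / 4) (2 n + 1)^d` vertices of infinite clusters, the outer boundary of which in the open
graph has at most `ε n^(d-1)` vertices.

Finally, if there is an infinite cluster at `p_c`, then `P_{p_c}`-almost surely for every `c' < c`
the infinite clusters contain arbitrarily large finite sets `F` with an outer boundary of at most
`|F|^((d-1)/d) / (log |F|)^{c'}` vertices. -/
theorem result (d : ℕ) (hd : 3 ≤ d) : ∃ c C : ℝ, 0 < c ∧ 0 < C ∧
    (∀ (L : ℝ) (n : ℕ) (r : V d → unitInterval), 2 ≤ L → 2 ≤ n →
      (∀ x, (r x : ℝ) ≤ pc d + 1 / L) →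
      (∀ (v : Fin d) (t : ℤ) (S : Set (V d)) (k : ℕ), {x | x ∈ S ∧ x v = t}.Finite →
        (P r).real {ω | ∀ X : Finset (V d), X.card ≤ k →
          Joined ω (S \ X) {x | x v ≤ t} {x | t + n ≤ x v}} ≤
        C * ({x | x ∈ S ∧ x v = t}.ncard : ℝ) / ((k + 1) * Real.log (min n L) ^ c)) ∧
      (∀ (a b : V d) (k : ℕ), a ≤ b →
        (P r).real {ω | ∀ X : Finset (V d), X.card ≤ k →
          Joined ω ((X : Set (V d))ᶜ) (Icc a b) (far a b n)} ≤
        C * surf a b n / ((k + 1) * Real.log (min n L) ^ c)) ∧
      (∀ (v : Fin d) (t : ℤ) (S : Finset (V d)),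
        Integrable (fun ω => cond ω S v t n) (P r) ∧
        ∫ ω, cond ω S v t n ∂(P r) ≤
          C * ((S.filter fun x => t < x v ∧ x v < t + n).card : ℝ) /
            ((n : ℝ) ^ 2 * Real.log (min n L) ^ c))) ∧
    (∀ (p : unitInterval) (L ε : ℝ) (n : ℕ), 2 ≤ L → 2 ≤ n → (p : ℝ) ≤ pc d + 1 / L → 0 < ε →
      ε ≤ theta d p * n →
      theta d p / 2 - C / (ε * Real.log (min n L) ^ c) ≤
        (P fun _ : V d => p).real {ω | ∃ F X : Finset (V d), Bounds ω F X ∧
          (∀ x ∈ F, ∀ i, |x i| ≤ 2 * n) ∧
          theta d p / 4 * (2 * (n : ℝ) + 1) ^ d ≤ F.card ∧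
          (X.card : ℝ) ≤ ε * (n : ℝ) ^ (d - 1)}) ∧
    (0 < theta d (pc d) → ∀ᵐ ω ∂(P fun _ : V d => pc d), ∀ c' : ℝ, c' < c → ∀ N : ℕ,
      ∃ F X : Finset (V d), Bounds ω F X ∧ N ≤ F.card ∧
        (X.card : ℝ) ≤ (F.card : ℝ) ^ (((d : ℝ) - 1) / d) / Real.log F.card ^ c') := by
  obtain ⟨c, C₁, hc, hC₁, harm⟩ := Pool.Agent.H629.PT.arm_le d hd
  obtain ⟨K, hK⟩ : ∃ K : ℝ, K = 2 * d * 5 ^ (d - 1) * C₁ := ⟨_, rfl⟩
  have hK0 : 0 ≤ K := by rw [hK]; positivity
  obtain ⟨C, hC⟩ : ∃ C : ℝ, C = 4 * C₁ + K := ⟨_, rfl⟩
  have hCpos : 0 < C := by rw [hC]; linarith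
  have hC1 : C₁ ≤ C := by rw [hC]; linarith
  have hC4 : 4 * C₁ ≤ C := by rw [hC]; linarith
  have hCK : K ≤ C := by rw [hC]; linarith
  have hlog : ∀ (L : ℝ) (n : ℕ), 2 ≤ L → 2 ≤ n → 0 < Real.log (min (n : ℝ) L) ^ c := by
    intro L n hL hn
    refine Real.rpow_pos_of_pos (Real.log_pos ?_) c
    have hnR : (2 : ℝ) ≤ n := by exact_mod_cast hn
    have : (2 : ℝ) ≤ min (n : ℝ) L := le_min hnR hL
    linarith
  refine ⟨c, C, hc, hCpos, ?_, ?_, ?_⟩
  · intro L n r hL hn hr
    have hlp := hlog L n hL hn
    refine ⟨?_, ?_, ?_⟩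
    · intro v t S k hT
      have h := Pool.Agent.H629.PT.slab_cut (c := c) (C := C₁) (L := L) (n := n) (v := v) r
        (fun y => harm L n n r hL hn (by omega) hr v true y) S t hT k
      refine le_trans h (div_le_div_of_nonneg_right ?_ (by positivity))
      exact mul_le_mul_of_nonneg_right hC1 (by positivity)
    · intro a b k hab
      have h := Pool.Agent.H629.PT.annulus_cut (c := c) (C := C₁) (L := L) (n := n) r
        (fun v s y => harm L n n r hL hn (by omega) hr v s y) a b hab k
      refine le_trans h (div_le_div_of_nonneg_right ?_ (by positivity))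
      refine mul_le_mul_of_nonneg_right hC1 ?_
      refine Finset.sum_nonneg fun v _ => mul_nonneg (by norm_num) ?_
      refine Finset.prod_nonneg fun i _ => ?_
      have h1 : a i ≤ b i := hab i
      have h2 : (a i : ℝ) ≤ b i := by exact_mod_cast h1
      have h3 : (0 : ℝ) ≤ n := Nat.cast_nonneg n
      linarith
    · intro v t S
      have hE := Pool.Agent.H629.PT.cond_exp (c := c) (C := C₁) (L := L) (n := n) (v := v) r hn
        (by positivity) (fun y => harm L n (n / 2) r hL hn (by omega) hr v true y) S t
      refine ⟨?_, le_trans hE (div_le_div_of_nonneg_right ?_ (by positivity))⟩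
      · exact Pool.Agent.H629.PT.cond_int r S v t n (by omega)
      · exact mul_le_mul_of_nonneg_right hC4 (by positivity)
  · intro p L ε n hL hn hp hε hεθ
    have hlp := hlog L n hL hn
    have h := Pool.Agent.H629.PT.iso (c := c) (C := C₁) (L := L) (n := n) hd hC₁ p hn hL
      (fun v s y => harm L n n (fun _ => p) hL hn (by omega) (fun _ => hp) v s y) hε hεθ
    rw [← hK] at h
    have h1 : K / (ε * Real.log (min (n : ℝ) L) ^ c) ≤ C / (ε * Real.log (min (n : ℝ) L) ^ c) :=
      div_le_div_of_nonneg_right hCK (by positivity)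
    have h2 : theta d p / 2 - C / (ε * Real.log (min (n : ℝ) L) ^ c) ≤
        theta d p / 2 - K / (ε * Real.log (min (n : ℝ) L) ^ c) := by linarith
    refine h2.trans (h.trans (measureReal_mono ?_ (measure_ne_top _ _)))
    rintro ω ⟨F, X, h3, h4, h5, h6⟩
    refine ⟨F, X, ⟨fun x hx => (h3 x hx).1, h6⟩, ?_, h4, h5⟩
    intro x hx i
    have h7 := (h3 x hx).2 i
    rw [Pi.zero_apply, sub_zero] at h7
    exact_mod_cast h7
  · intro hθ
    have h := fun (k : ℕ) => Pool.Agent.H629.PT.iso_as (c := c) (C := C₁) hd hC₁ (pc d)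
      (fun n hn v s y => by
        have h1 := harm (n : ℝ) n n (fun _ => pc d) (by exact_mod_cast hn) hn (by omega)
          (fun _ => by
            show ((pc d : unitInterval) : ℝ) ≤ ((pc d : unitInterval) : ℝ) + 1 / n
            have : (0 : ℝ) ≤ 1 / n := by positivity
            linarith) v s y
        rwa [min_self] at h1) hθ
      (c' := c * (1 - 1 / ((k : ℝ) + 2)))
      (by
        have h1 : 1 / ((k : ℝ) + 2) ≤ 1 := by
          rw [div_le_one (by positivity)]
          have : (0 : ℝ) ≤ k := Nat.cast_nonneg k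
          linarith
        nlinarith)
      (by
        have h1 : 0 < 1 / ((k : ℝ) + 2) := by positivity
        nlinarith)
    rw [← ae_all_iff] at h
    filter_upwards [h] with ω hω c' hc' N
    -- choose `k`
    obtain ⟨k, hk⟩ := exists_nat_one_div_lt (show 0 < (c - c') / c by
      have : 0 < c - c' := by linarith
      positivity)
    have hk2 : 1 / ((k : ℝ) + 2) ≤ (c - c') / c := by
      refine le_trans ?_ hk.le
      exact one_div_le_one_div_of_le (by positivity) (by linarith)
    have hk3 : c' ≤ c * (1 - 1 / ((k : ℝ) + 2)) := by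
      rw [le_div_iff₀ hc] at hk2
      linarith
    obtain ⟨F, X, h1, h2, h3, h4⟩ := hω k (max N 3)
    refine ⟨F, X, ⟨h2, h3⟩, (le_max_left _ _).trans h1, h4.trans ?_⟩
    have hF3 : (3 : ℝ) ≤ F.card := by exact_mod_cast (le_max_right _ _).trans h1
    have hlF : 1 ≤ Real.log F.card := by
      rw [Real.le_log_iff_exp_le (by linarith)]
      exact Real.exp_one_lt_three.le.trans hF3
    refine div_le_div_of_nonneg_left (by positivity)
      (Real.rpow_pos_of_pos (by linarith) _) ?_
    exact Real.rpow_le_rpow_of_exponent_le hlF hk3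

end

end Pool.Agent.Results.MP_e13933_pr.VanishingTransport
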